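import Pool.Agent.H25.NB.Par
import Pool.Agent.H25.NQ.Main

/-!
# Application to the equation: preliminaries
-/

set_option autoImplicit false

namespace Pool.Agent.H25.NB

open Finset Pool.Agent.H26.NL Pool.Agent.H25.NP

/-- A number `>= 2` is a power of a number which is not a square. -/
lemma exists_root (n : ℕ) (hn : 2 ≤ n) :
    ∃ g m : ℕ, 1 ≤ m ∧ 2 ≤ g ∧ g ^ m = n ∧ ¬ IsSquare g := by
  induction n using Nat.strong_induction_on with
  | _ n ih =>
    by_cases h : IsSquare n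
    · obtain ⟨c, hc⟩ := h
      have hc2 : 2 ≤ c := by
        by_contra h0
        have : c = 0 ∨ c = 1 := by omega
        rcases this with rfl | rfl <;> omega
      obtain ⟨g, m, hm, hg, hgm, hns⟩ := ih c (by nlinarith) hc2
      refine ⟨g, 2 * m, by omega, hg, ?_, hns⟩
      rw [hc, mul_comm, pow_mul, hgm, sq]
    · exact ⟨n, 1, le_rfl, hn, pow_one n, h⟩

lemma not_sq_mul {q n : ℕ} (hq : q.Prime) (h : ¬ q ∣ n) : ¬ IsSquare (q * n) := by
  rintro ⟨c, hc⟩
  have h1 : q ∣ c * c := ⟨n, hc.symm⟩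
  have h2 : q ∣ c := (hq.dvd_mul.mp h1).elim id id
  obtain ⟨t, rfl⟩ := h2
  have h3 : q * n = q * (q * (t * t)) := by rw [hc]; ring
  have h4 := Nat.eq_of_mul_eq_mul_left hq.pos h3
  exact h ⟨t * t, h4⟩

/-- Independence modulo squares. -/
lemma indep {q p g m d k : ℕ} (hq : q.Prime) (hp : p.Prime) (hqp : ¬ q ∣ p) (hqg : ¬ q ∣ g)
    (hpg : ¬ p ∣ g) (hg : ¬ IsSquare g) (e : Fin 3 → Fin 2) (he : e ≠ 0) :
    ¬ IsSquare (∏ i, (DT.av ⟨q, p, g, m, d, k⟩) i ^ (e i : ℕ)) := by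
  rw [Fin.prod_univ_three]
  have e0 : DT.av ⟨q, p, g, m, d, k⟩ 0 = q := rfl
  have e1 : DT.av ⟨q, p, g, m, d, k⟩ 1 = p := rfl
  have e2 : DT.av ⟨q, p, g, m, d, k⟩ 2 = g := rfl
  rw [e0, e1, e2]
  have c0 : (e 0 : ℕ) = 0 ∨ (e 0 : ℕ) = 1 := by have := (e 0).2; omega
  have c1 : (e 1 : ℕ) = 0 ∨ (e 1 : ℕ) = 1 := by have := (e 1).2; omega
  have c2 : (e 2 : ℕ) = 0 ∨ (e 2 : ℕ) = 1 := by have := (e 2).2; omega
  rcases c0 with h0 | h0
  · rcases c1 with h1 | h1
    · rcases c2 with h2 | h2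
      · exfalso
        apply he
        funext i
        apply Fin.ext
        match i with
        | 0 => exact h0
        | 1 => exact h1
        | 2 => exact h2
      · rw [h0, h1, h2]
        simpa using hg
    · rw [h0, h1, pow_zero, one_mul, pow_one]
      apply not_sq_mul hp
      intro h
      exact hpg (hp.dvd_of_dvd_pow h)
  · rw [h0, pow_one, mul_assoc]
    apply not_sq_mul hq
    intro h
    rcases hq.dvd_mul.mp h with h | h
    · exact hqp (hq.dvd_of_dvd_pow h)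
    · exact hqg (hq.dvd_of_dvd_pow h)

lemma abs_log_le {t : ℝ} (h0 : 0 ≤ t) (h1 : t ≤ 1 / 2) : |Real.log (1 - t)| ≤ 2 * t := by
  have h2 : 0 < 1 - t := by linarith
  have h3 : Real.log (1 - t) ≤ 0 := Real.log_nonpos h2.le (by linarith)
  rw [abs_of_nonpos h3, ← Real.log_inv]
  refine (Real.log_le_sub_one_of_pos (inv_pos.mpr h2)).trans ?_
  have h4 : (1 - t)⁻¹ ≤ 1 + 2 * t := by
    rw [inv_le_iff_one_le_mul₀ h2]
    nlinarith
  linarith

/-- `k < d`. -/
lemma k_lt {d p k r e : ℕ} (hd4 : 4 ≤ d) (hp : p.Prime) (hr : r.Prime)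
    (he : 1 ≤ e) (hk : 1 < k) (hodd : Odd k) (hkr : k ∣ r - 1)
    (h : ((r ^ e) ^ d - 1) / (r ^ e - 1) = p ^ k) : k < d ∧ 7 ≤ d ∧ d.Prime ∧ 7 ≤ r ∧ 3 ≤ k := by
  have S := sol_of_eq (by omega) hp hr he hk h
  have hd : d.Prime := d_prime S.hq (by omega) hp S.eq
  have h7 : 7 ≤ d := by
    by_contra h1
    rw [not_le] at h1
    interval_cases d
    · exact absurd hd (by norm_num)
    · exact no_five hp hr he hk hodd hkr h
    · exact absurd hd (by norm_num)
  have hk3 : 3 ≤ k := by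
    rcases hodd with ⟨m, hm⟩; omega
  have hr7 : 7 ≤ r := by
    have := Pool.Agent.H25.NQ.r_ge hr hk3 hodd hkr
    omega
  refine ⟨?_, h7, hd, hr7, hk3⟩
  by_contra hkd
  rw [not_lt] at hkd
  have hq7 : 7 ≤ r ^ e := by
    calc 7 ≤ r := hr7
      _ = r ^ 1 := (pow_one r).symm
      _ ≤ r ^ e := Nat.pow_le_pow_right hr.pos he
  have hdf : Fact d.Prime := ⟨hd⟩
  have hlt : p ^ k < (r ^ e) ^ d := by
    have h1 := S.q_pow
    have h2 : p ^ k ≤ (r ^ e - 1) * p ^ k := Nat.le_mul_of_pos_left _ (by omega)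
    omega
  have hpq : p < r ^ e := by
    by_contra h1
    rw [not_lt] at h1
    have h2 : (r ^ e) ^ d ≤ p ^ k :=
      (Nat.pow_le_pow_right (by omega) hkd).trans (Nat.pow_le_pow_left h1 k)
    omega
  have hB := theoremB hd4 hp hr he hk hodd hkr h
  have hN := N_le hd h7
  set N := 2 * (d / 3 - d / 4) with hNdef
  set q := r ^ e with hq
  have h1 : q ^ (d - 1) * q ^ (d - 1) < q ^ (d - 1) * q ^ (d - 1) := by
    calc q ^ (d - 1) * q ^ (d - 1) ≤ (2 ^ (d - 1) * p ^ N) * (2 ^ (d - 1) * p ^ N) :=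
          Nat.mul_le_mul hB hB
      _ = 4 ^ (d - 1) * (p ^ N * p ^ N) := by
          rw [show (4 : ℕ) = 2 * 2 by norm_num, mul_pow]; ring
      _ ≤ 4 ^ (d - 1) * (q ^ N * q ^ N) := by
          refine Nat.mul_le_mul_left _ (Nat.mul_le_mul ?_ ?_) <;>
            exact Nat.pow_le_pow_left hpq.le _
      _ = 4 ^ (d - 1) * q ^ (N + N) := by rw [pow_add]
      _ ≤ 4 ^ (d - 1) * q ^ (d - 1) := by
          refine Nat.mul_le_mul_left _ (Nat.pow_le_pow_right (by omega) ?_)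
          omega
      _ < q ^ (d - 1) * q ^ (d - 1) := by
          refine Nat.mul_lt_mul_of_pos_right (Nat.pow_lt_pow_left (by omega) (by omega)) ?_
          positivity
  exact lt_irrefl _ h1

/-- The relation between the logarithms. -/
lemma log_rel {q p d k g m : ℕ} (hq : 7 ≤ q) (hp : 2 ≤ p) (hd : 1 ≤ d)
    (h : q ^ d = (q - 1) * p ^ k + 1) (hgm : g ^ m = q - 1) :
    ∃ η : ℝ, (m : ℝ) * Real.log g = d * Real.log q - k * Real.log p + η ∧
      |η| ≤ Real.exp (-(d * Real.log q - 1)) := by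
  have hq0 : (7 : ℝ) ≤ q := by exact_mod_cast hq
  have hp0 : (2 : ℝ) ≤ p := by exact_mod_cast hp
  have hqd : (7 : ℝ) ≤ (q : ℝ) ^ d := by
    calc (7 : ℝ) ≤ q := hq0
      _ = (q : ℝ) ^ 1 := (pow_one _).symm
      _ ≤ (q : ℝ) ^ d := pow_le_pow_right₀ (by linarith) hd
  refine ⟨Real.log (1 - ((q : ℝ) ^ d)⁻¹), ?_, ?_⟩
  · have h1 : (q : ℝ) ^ d = (q - 1) * (p : ℝ) ^ k + 1 := by
      have h2 : ((q ^ d : ℕ) : ℝ) = (((q - 1) * p ^ k + 1 : ℕ) : ℝ) := by exact_mod_cast h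
      push_cast at h2
      rw [Nat.cast_sub (by omega)] at h2
      simpa using h2
    have h3 : (g : ℝ) ^ m = (q : ℝ) - 1 := by
      have h2 : ((g ^ m : ℕ) : ℝ) = ((q - 1 : ℕ) : ℝ) := by exact_mod_cast hgm
      push_cast at h2
      rw [Nat.cast_sub (by omega)] at h2
      simpa using h2
    have h4 : (m : ℝ) * Real.log g = Real.log ((q : ℝ) - 1) := by
      rw [← h3, Real.log_pow]
    have h5 : Real.log ((q : ℝ) - 1) + k * Real.log p = Real.log ((q : ℝ) ^ d - 1) := by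
      rw [← Real.log_pow, ← Real.log_mul (by linarith) (by positivity)]
      congr 1
      linarith
    have h6 : Real.log ((q : ℝ) ^ d - 1) = d * Real.log q + Real.log (1 - ((q : ℝ) ^ d)⁻¹) := by
      rw [← Real.log_pow, ← Real.log_mul (by linarith)]
      · congr 1
        field_simp
      · have : ((q : ℝ) ^ d)⁻¹ ≤ 7⁻¹ := inv_anti₀ (by norm_num) hqd
        norm_num at this
        linarith
    linarith
  · have h1 : ((q : ℝ) ^ d)⁻¹ ≤ 1 / 2 := by
      have : ((q : ℝ) ^ d)⁻¹ ≤ 7⁻¹ := inv_anti₀ (by norm_num) hqd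
      norm_num at this
      linarith
    refine (abs_log_le (by positivity) h1).trans ?_
    have h2 : ((q : ℝ) ^ d)⁻¹ = Real.exp (-(d * Real.log q)) := by
      rw [Real.exp_neg, ← Real.log_pow, Real.exp_log (by positivity)]
    have h3 : Real.exp (-(d * Real.log q - 1)) = Real.exp (-(d * Real.log q)) * Real.exp 1 := by
      rw [← Real.exp_add]
      congr 1
      ring
    rw [h2, h3, mul_comm]
    refine mul_le_mul_of_nonneg_left ?_ (Real.exp_pos _).le
    linarith [Real.add_one_le_exp (1 : ℝ)]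

end Pool.Agent.H25.NB
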