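import Pool.Agent.H25.NB.App
import Pool.Agent.H25.NW.Uni

/-!
# The bound `k^3 <= 10^31 d^2 (log d)^8`
-/

set_option autoImplicit false

namespace Pool.Agent.H25.NB

open Finset Pool.Agent.H26.NL Pool.Agent.H25.NP

/-- Elementary form of the height bound: `k log r <= 16 d log d`. -/
lemma height_real {d k r : ℕ} (hk : 1 ≤ k) (hkd : k < d) (h7 : 7 ≤ d) (hr : 1 ≤ r)
    (h : ∀ D : ℕ, 2 * (d + 5) ≤ 6 * k * D → r ≤ (4 * k) ^ (4 * D)) :
    Real.log r * k ≤ 16 * (d * Real.log d) := by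
  set D := (d + 5) / (3 * k) + 1 with hD
  have h1 : d + 5 ≤ 3 * k * D := by
    have e1 := Nat.div_add_mod (d + 5) (3 * k)
    have e2 := Nat.mod_lt (d + 5) (show 0 < 3 * k by omega)
    rw [hD, mul_add]
    omega
  have h2 : D * k ≤ 2 * d := by
    have e1 : (d + 5) / (3 * k) * (3 * k) ≤ d + 5 := Nat.div_mul_le_self _ _
    have e2 : 3 * (D * k) = (d + 5) / (3 * k) * (3 * k) + 3 * k := by rw [hD]; ring
    omega
  have h3 := h D (by
    have : 6 * k * D = 2 * (3 * k * D) := by ring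
    omega)
  have hr0 : (0 : ℝ) < r := by exact_mod_cast hr
  have hk0 : (1 : ℝ) ≤ k := by exact_mod_cast hk
  have hd0 : (7 : ℝ) ≤ d := by exact_mod_cast h7
  have hkd' : (k : ℝ) ≤ d := by exact_mod_cast hkd.le
  have h4 : Real.log r ≤ (4 * D : ℕ) * Real.log (4 * k) := by
    have e1 : (r : ℝ) ≤ (4 * k : ℝ) ^ (4 * D) := by exact_mod_cast h3
    have e2 := Real.log_le_log hr0 e1
    rwa [Real.log_pow] at e2
  have h5 : Real.log (4 * k) ≤ 2 * Real.log d := by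
    have e1 : (4 * k : ℝ) ≤ (d : ℝ) ^ 2 := by nlinarith
    have e2 := Real.log_le_log (by linarith) e1
    rw [Real.log_pow] at e2
    exact_mod_cast e2
  have h6 : 0 ≤ Real.log (4 * (k : ℝ)) := Real.log_nonneg (by linarith)
  have h7' : (D : ℝ) * k ≤ 2 * d := by exact_mod_cast h2
  calc Real.log r * k ≤ ((4 * D : ℕ) * Real.log (4 * k)) * k :=
        mul_le_mul_of_nonneg_right h4 (by linarith)
    _ = 4 * ((D * k) * Real.log (4 * k)) := by push_cast; ring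
    _ ≤ 4 * ((2 * d) * (2 * Real.log d)) := by
        refine mul_le_mul_of_nonneg_left ?_ (by norm_num)
        exact mul_le_mul h7' h5 h6 (by positivity)
    _ = 16 * (d * Real.log d) := by ring

lemma one_le_log {n : ℕ} (h : 3 ≤ n) : 1 ≤ Real.log n := by
  have h1 : (3 : ℝ) ≤ n := by exact_mod_cast h
  rw [Real.le_log_iff_exp_le (by linarith)]
  linarith [Real.exp_one_lt_d9]

/-- The numerical part. -/
lemma numeric {a b l d k m : ℝ} (hd : 7 ≤ d) (hk : 1 ≤ k) (hkd : k ≤ d) (ha : 1 ≤ a) (hb : 1 ≤ b)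
    (hl : 1 ≤ l) (hld : l ≤ d) (hm0 : 0 ≤ m) (hm : m ≤ 2 * a) (hA : a * k ≤ 16 * (d * l))
    (hB : b * k ≤ a * d) :
    (m + d + k) * (5 * 10 ^ 10 * (a ^ 2 * b * (60 * l) ^ 4)) ≤ d ^ 60 := by
  have h1 : a ≤ 16 * d ^ 2 := by
    calc a = a * 1 := (mul_one a).symm
      _ ≤ a * k := mul_le_mul_of_nonneg_left hk (by linarith)
      _ ≤ 16 * (d * l) := hA
      _ ≤ 16 * (d * d) := by gcongr
      _ = 16 * d ^ 2 := by ring
  have h2 : b ≤ 16 * d ^ 3 := by
    calc b = b * 1 := (mul_one b).symm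
      _ ≤ b * k := mul_le_mul_of_nonneg_left hk (by linarith)
      _ ≤ a * d := hB
      _ ≤ (16 * d ^ 2) * d := by gcongr
      _ = 16 * d ^ 3 := by ring
  have h3 : m + d + k ≤ 33 * d ^ 2 := by nlinarith
  calc (m + d + k) * (5 * 10 ^ 10 * (a ^ 2 * b * (60 * l) ^ 4))
      ≤ (33 * d ^ 2) * (5 * 10 ^ 10 * ((16 * d ^ 2) ^ 2 * (16 * d ^ 3) * (60 * d) ^ 4)) := by
        gcongr
    _ = (33 * (5 * 10 ^ 10 * (4096 * 12960000))) * d ^ 13 := by ring
    _ ≤ 7 ^ 47 * d ^ 13 := by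
        refine mul_le_mul_of_nonneg_right ?_ (by positivity)
        norm_num
    _ ≤ d ^ 47 * d ^ 13 := by gcongr
    _ = d ^ 60 := by ring

/-- The final inequality. -/
lemma final_ineq {a b l d k : ℝ} (hd : 7 ≤ d) (hk : 1 ≤ k) (ha : 1 ≤ a) (hb : 1 ≤ b)
    (hl : 1 ≤ l) (hA : a * k ≤ 16 * (d * l)) (hB : b * k ≤ a * d)
    (h : d * a - 1 < 6327321 * ((5 * 10 ^ 10 * (a ^ 2 * b * (60 * l) ^ 4)) * (60 * l) ^ 2)) :
    k ^ 3 ≤ 10 ^ 31 * (d ^ 2 * l ^ 8) := by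
  have h1 : d * a * (6 / 7) ≤ d * a - 1 := by nlinarith
  have h2 : d * a * (6 / 7) ≤ 15 * 10 ^ 27 * (a ^ 2 * b * l ^ 6) := by
    have e1 : 6327321 * ((5 * 10 ^ 10 * (a ^ 2 * b * (60 * l) ^ 4)) * (60 * l) ^ 2)
        = 6327321 * 5 * 10 ^ 10 * 60 ^ 6 * (a ^ 2 * b * l ^ 6) := by ring
    have e2 : 0 ≤ a ^ 2 * b * l ^ 6 := by positivity
    rw [e1] at h
    have e3 : (6327321 * 5 * 10 ^ 10 * 60 ^ 6 : ℝ) * (a ^ 2 * b * l ^ 6)
        ≤ 15 * 10 ^ 27 * (a ^ 2 * b * l ^ 6) := by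
      refine mul_le_mul_of_nonneg_right ?_ e2
      norm_num
    linarith
  -- multiply by `k`
  have h3 : d * a * (6 / 7) * k ≤ 15 * 10 ^ 27 * (a ^ 3 * d * l ^ 6) := by
    calc d * a * (6 / 7) * k ≤ 15 * 10 ^ 27 * (a ^ 2 * b * l ^ 6) * k :=
          mul_le_mul_of_nonneg_right h2 (by linarith)
      _ = 15 * 10 ^ 27 * (a ^ 2 * l ^ 6) * (b * k) := by ring
      _ ≤ 15 * 10 ^ 27 * (a ^ 2 * l ^ 6) * (a * d) :=
          mul_le_mul_of_nonneg_left hB (by positivity)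
      _ = 15 * 10 ^ 27 * (a ^ 3 * d * l ^ 6) := by ring
  have h4 : k ≤ 175 * 10 ^ 26 * (a ^ 2 * l ^ 6) := by
    have e1 : (d * a) * k ≤ (d * a) * (175 * 10 ^ 26 * (a ^ 2 * l ^ 6)) := by
      have e2 : (d * a) * (175 * 10 ^ 26 * (a ^ 2 * l ^ 6))
          = (7 / 6) * (15 * 10 ^ 27 * (a ^ 3 * d * l ^ 6)) := by ring
      rw [e2]
      linarith
    exact le_of_mul_le_mul_left e1 (by positivity)
  calc k ^ 3 = k * k ^ 2 := by ring
    _ ≤ 175 * 10 ^ 26 * (a ^ 2 * l ^ 6) * k ^ 2 := mul_le_mul_of_nonneg_right h4 (by positivity)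
    _ = 175 * 10 ^ 26 * l ^ 6 * (a * k) ^ 2 := by ring
    _ ≤ 175 * 10 ^ 26 * l ^ 6 * (16 * (d * l)) ^ 2 := by
        refine mul_le_mul_of_nonneg_left ?_ (by positivity)
        exact pow_le_pow_left₀ (by positivity) hA 2
    _ = 448 * 10 ^ 28 * (d ^ 2 * l ^ 8) := by ring
    _ ≤ 10 ^ 31 * (d ^ 2 * l ^ 8) := by
        refine mul_le_mul_of_nonneg_right ?_ (by positivity)
        norm_num

/-- The bound for the exponent. -/
theorem exponent_bound {d p k r e : ℕ} (hd4 : 4 ≤ d) (hp : p.Prime) (hr : r.Prime)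
    (he : 1 ≤ e) (hk : 1 < k) (hodd : Odd k) (hkr : k ∣ r - 1)
    (h : ((r ^ e) ^ d - 1) / (r ^ e - 1) = p ^ k) :
    (k : ℝ) ^ 3 ≤ 10 ^ 31 * ((d : ℝ) ^ 2 * Real.log d ^ 8) := by
  obtain ⟨hkd, h7, hdp, hr7, hk3⟩ := k_lt hd4 hp hr he hk hodd hkr h
  have he1 := Pool.Agent.H25.NQ.base_prime hr he hp hd4 hk hodd hkr h
  have hH : ∀ D : ℕ, 2 * (d + 5) ≤ 6 * k * D → r ≤ (4 * k) ^ (4 * D) := by
    intro D hD
    have := Pool.Agent.H25.NW.heightBound' hr he hp hd4 hk hodd hkr h (Or.inl rfl) hD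
    rwa [he1, pow_one] at this
  have S := sol_of_eq (by omega) hp hr he hk h
  rw [he1, pow_one] at S
  have hdf : Fact d.Prime := ⟨hdp⟩
  have hpf : Fact p.Prime := ⟨hp⟩
  have hdvd : d ∣ p - 1 := S.dvd_sub_one
  have hp8 : 8 ≤ p := by
    have := Nat.le_of_dvd (by have := hp.two_le; omega) hdvd
    omega
  have hpr : ¬ p ∣ r := S.not_dvd_q
  have hpr1 : ¬ p ∣ r - 1 := S.not_dvd_q_sub
  have hrp : ¬ r ∣ p := by
    intro h1
    have := (Nat.prime_dvd_prime_iff_eq hr hp).mp h1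
    exact hpr (this ▸ dvd_refl _)
  obtain ⟨g, m, hm, hg, hgm, hns⟩ := exists_root (r - 1) (by omega)
  have hrg : ¬ r ∣ g := by
    intro h1
    have h2 : r ∣ r - 1 := hgm ▸ h1.trans (dvd_pow_self g (by omega))
    have := Nat.le_of_dvd (by omega) h2
    omega
  have hpg : ¬ p ∣ g := by
    intro h1
    exact hpr1 (hgm ▸ h1.trans (dvd_pow_self g (by omega)))
  obtain ⟨η, hrel, hη⟩ := log_rel (q := r) (p := p) (d := d) (k := k) hr7 (by omega) (by omega)
    S.q_pow hgm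
  -- real quantities
  have ha : 1 ≤ Real.log r := one_le_log (by omega)
  have hb : 1 ≤ Real.log p := one_le_log (by omega)
  have hl : 1 ≤ Real.log d := one_le_log (by omega)
  have hd0 : (7 : ℝ) ≤ d := by exact_mod_cast h7
  have hk0 : (1 : ℝ) ≤ k := by exact_mod_cast hk.le
  have hkd' : (k : ℝ) ≤ d := by exact_mod_cast hkd.le
  have hr0 : (7 : ℝ) ≤ r := by exact_mod_cast hr7
  have hp0 : (8 : ℝ) ≤ p := by exact_mod_cast hp8
  have hld : Real.log d ≤ d := (Real.log_le_sub_one_of_pos (by linarith)).trans (by linarith)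
  have hA := height_real (by omega) hkd h7 (by omega) hH
  have hB : Real.log p * k ≤ Real.log r * d := by
    have h1 : p ^ k ≤ r ^ d := by
      have h1 := S.q_pow
      have h2 : p ^ k ≤ (r - 1) * p ^ k := Nat.le_mul_of_pos_left _ (by omega)
      omega
    have h2 : (p : ℝ) ^ k ≤ (r : ℝ) ^ d := by exact_mod_cast h1
    have h3 := Real.log_le_log (by positivity) h2
    rw [Real.log_pow, Real.log_pow] at h3
    linarith
  have hgr : Real.log g ≤ Real.log r := by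
    have h1 : g ≤ r := by
      have : g ^ 1 ≤ g ^ m := Nat.pow_le_pow_right (by omega) hm
      rw [pow_one] at this
      omega
    exact Real.log_le_log (by exact_mod_cast (by omega : 0 < g)) (by exact_mod_cast h1)
  have hm2 : (m : ℝ) ≤ 2 * Real.log r := by
    have h1 : 2 ^ m ≤ r := by
      have : 2 ^ m ≤ g ^ m := Nat.pow_le_pow_left hg m
      omega
    have h2 : (2 : ℝ) ^ m ≤ (r : ℝ) := by exact_mod_cast h1
    have h3 := Real.log_le_log (by positivity) h2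
    rw [Real.log_pow] at h3
    have h4 := Real.log_two_gt_d9
    have h5 : (0 : ℝ) ≤ m := Nat.cast_nonneg _
    nlinarith
  have hexp : Real.exp (60 * Real.log d) = (d : ℝ) ^ 60 := by
    rw [show (60 : ℝ) = ((60 : ℕ) : ℝ) by norm_num, Real.exp_nat_mul, Real.exp_log (by linarith)]
  have hm0 : (0 : ℝ) ≤ m := Nat.cast_nonneg _
  have hnum := numeric hd0 hk0 hkd' ha hb hl hld hm0 hm2 hA hB
  have hEpos : 0 ≤ 5 * 10 ^ 10 * (Real.log r ^ 2 * Real.log p * (60 * Real.log d) ^ 4) := by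
    positivity
  have hmain := param (q := r) (p := p) (g := g) (m := m) (d := d) (k := k) (η := η)
    (G := 60 * Real.log d)
    (E := 5 * 10 ^ 10 * (Real.log r ^ 2 * Real.log p * (60 * Real.log d) ^ 4))
    (by omega) (by omega) hg hm (indep hr hp hrp hrg hpg hns) ha hb hgr hrel hη (by linarith) rfl
    (by rw [hexp]; exact hnum)
    (by
      rw [hexp]
      refine le_trans ?_ hnum
      exact mul_le_mul_of_nonneg_right (by linarith) hEpos)
  exact final_ineq hd0 hk0 ha hb hl hA hB hmain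

end Pool.Agent.H25.NB
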