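import Pool.Agent.H25.NB.Sq
import Pool.Agent.H78.BF.SCH

/-!
# Extrapolation from the odd integers to their halves
-/

set_option autoImplicit false

namespace Pool.Agent.H25.NB

open Finset

noncomputable section

variable (D : DT)

/-- The standing assumptions on the sizes. -/
structure Sz (D : DT) (τ σ : ℕ) (E G η : ℝ) : Prop where
  hα : 2 ≤ D.α
  hβ : 2 ≤ D.β
  hγ : 2 ≤ D.γ
  hm : 1 ≤ D.m
  hrel : D.m * Real.log D.γ = D.d * Real.log D.α - D.k * Real.log D.β + η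
  hE : 1 ≤ E
  hG : 1 ≤ G
  hτ : 1000 * E ≤ τ
  hσ : 100 * G ≤ σ
  hη : |η| ≤ Real.exp (-(21 * (τ * σ : ℝ)))
  hl1 : Real.log D.α ≤ E
  hl2 : Real.log D.β ≤ E
  hl3 : Real.log D.γ ≤ E
  hL : 4 * E ≤ Real.exp G

/-- Linear consequences. -/
lemma Sz.lin {D : DT} {τ σ : ℕ} {E G η : ℝ} (H : Sz D τ σ E G η) :
    E * σ ≤ (τ * σ : ℝ) / 1000 ∧ G * τ ≤ (τ * σ : ℝ) / 100 ∧ E ≤ (τ * σ : ℝ) / 100000 ∧
      G ≤ (τ * σ : ℝ) / 100000 ∧ 1 ≤ (τ * σ : ℝ) / 100000 ∧ (σ : ℝ) ≤ (τ * σ : ℝ) / 1000 := by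
  have hE := H.hE
  have hG := H.hG
  have hτ := H.hτ
  have hσ := H.hσ
  have h1 : (0 : ℝ) ≤ σ := Nat.cast_nonneg _
  have h2 : (0 : ℝ) ≤ τ := Nat.cast_nonneg _
  refine ⟨?_, ?_, ?_, ?_, ?_, ?_⟩
  · nlinarith
  · nlinarith
  · nlinarith
  · nlinarith
  · nlinarith
  · nlinarith

lemma one_add_sq_le {n : ℕ} {E : ℝ} (hn : 2 ≤ n) (h : Real.log n ≤ E) :
    (1 + (n : ℝ)) ^ 2 ≤ Real.exp (4 * E) := by
  have h1 : (2 : ℝ) ≤ n := by exact_mod_cast hn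
  have h2 : 1 + (n : ℝ) ≤ (n : ℝ) ^ 2 := by nlinarith
  have h3 : (n : ℝ) ≤ Real.exp E := by
    rw [← Real.log_le_iff_le_exp (by linarith)]
    exact h
  calc (1 + (n : ℝ)) ^ 2 ≤ ((n : ℝ) ^ 2) ^ 2 := by gcongr
    _ ≤ ((Real.exp E) ^ 2) ^ 2 := by gcongr
    _ = Real.exp (4 * E) := by
      rw [← pow_mul, ← Real.exp_nat_mul]
      norm_num

lemma lam_aux {A E a b c Z : ℝ} (ha : 0 ≤ a) (hb : 0 ≤ b) (hc : 0 ≤ c)
    (k1 : a ≤ Real.exp (4 * E)) (k2 : b ≤ Real.exp (4 * E)) (k3 : c ≤ Real.exp (4 * E))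
    (hZ : 8 * (3 + A + 12 * E) ≤ Z) :
    (8 * Real.exp A * (a * b * c)) ^ 8 ≤ Real.exp Z := by
  have h8 : (2 : ℝ) ≤ Real.exp 1 := by linarith [Real.add_one_le_exp (1 : ℝ)]
  have k4 : (8 : ℝ) ≤ Real.exp 3 := by
    have h9 : Real.exp 3 = Real.exp 1 * Real.exp 1 * Real.exp 1 := by
      rw [← Real.exp_add, ← Real.exp_add]; norm_num
    rw [h9]
    nlinarith
  have h1 : a * b * c ≤ Real.exp (12 * E) := by
    have : Real.exp (12 * E) = Real.exp (4 * E) * Real.exp (4 * E) * Real.exp (4 * E) := by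
      rw [← Real.exp_add, ← Real.exp_add]; congr 1; ring
    rw [this]
    exact mul_le_mul (mul_le_mul k1 k2 hb (Real.exp_pos _).le) k3 hc (by positivity)
  have h2 : 8 * Real.exp A * (a * b * c) ≤ Real.exp (3 + A + 12 * E) := by
    rw [Real.exp_add, Real.exp_add]
    exact mul_le_mul (mul_le_mul_of_nonneg_right k4 (Real.exp_pos _).le) h1 (by positivity)
      (by positivity)
  refine (pow_le_pow_left₀ (by positivity) h2 8).trans ?_
  rw [← Real.exp_nat_mul]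
  refine Real.exp_le_exp.mpr ?_
  push_cast
  exact hZ

/-- The extrapolation. -/
lemma extra {D : DT} {τ σ : ℕ} {E G η : ℝ} (H : Sz D τ σ E G η)
    (hsq : ∀ e : Fin 3 → Fin 2, e ≠ 0 → ¬ IsSquare (∏ i, D.av i ^ (e i : ℕ)))
    (B : Finset IX) (p : IX → ℤ) {T : ℕ} {Q : ℝ}
    (hu : ∀ u ∈ B, D.lw u ≤ 3 * E) (hu3 : ∀ u ∈ B, (u.2.2 : ℝ) ≤ Real.exp G)
    (hQ : ∀ m1 m2 : ℕ, m1 + m2 ≤ T → ∀ u ∈ B, |(D.co p m1 m2 u : ℝ)| ≤ Q)
    (hQ0 : 0 ≤ Q) (hQ2 : B.card * Q ≤ Real.exp ((τ * σ : ℝ) / 25))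
    (hz : ∀ m1 m2 : ℕ, m1 + m2 ≤ T → ∀ j < σ, D.h B p m1 m2 ((2 * j + 1 : ℕ) : ℝ) = 0)
    {m1 m2 : ℕ} (hmT : m1 + m2 + τ ≤ T) {j : ℕ} (hj : j < σ) (e : Fin 3 → Fin 2) :
    ∑ u ∈ B with cl u = e,
      (D.co p m1 m2 u : ℝ) * Real.exp (((2 * j + 1 : ℕ) : ℝ) / 2 * D.lw u) = 0 := by
  obtain ⟨l1, l2, l3, l4, l5, l6⟩ := H.lin
  have hα0 : D.α ≠ 0 := by have := H.hα; omega
  have hβ0 : D.β ≠ 0 := by have := H.hβ; omega
  have hγ0 : D.γ ≠ 0 := by have := H.hγ; omega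
  have hm0 : D.m ≠ 0 := by have := H.hm; omega
  have hE0 : 0 ≤ E := by linarith [H.hE]
  have hG0 : 0 ≤ G := by linarith [H.hG]
  have hσ0 : (0 : ℝ) < σ := by linarith [H.hσ, H.hG]
  have hτ0 : (0 : ℝ) < τ := by linarith [H.hτ, H.hE]
  have hσ1 : 1 ≤ σ := by exact_mod_cast hσ0
  have hτ1 : 1 ≤ τ := by exact_mod_cast hτ0
  set X : ℝ := (τ * σ : ℝ) with hX
  set y : ℝ := Real.exp G * |η| with hy
  have hy0 : 0 ≤ y := by positivity
  -- size of `y`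
  have hyX : y ≤ Real.exp (G - 21 * X) := by
    rw [sub_eq_add_neg, Real.exp_add]
    exact mul_le_mul_of_nonneg_left H.hη (Real.exp_pos _).le
  have h2σ : 2 * (σ : ℝ) ≤ Real.exp (2 * σ) := by linarith [Real.add_one_le_exp (2 * (σ : ℝ))]
  have hys : y * (2 * σ) ≤ Real.exp (G - 21 * X + 2 * σ) := by
    rw [Real.exp_add]
    exact mul_le_mul hyX h2σ (by positivity) (Real.exp_pos _).le
  have hys1 : y * (2 * σ) ≤ 1 := by
    refine hys.trans (Real.exp_le_one_iff.mpr ?_)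
    linarith
  have hu3' : ∀ u ∈ B, (u.2.2 : ℝ) * |η| ≤ y := fun u hB =>
    mul_le_mul_of_nonneg_right (hu3 u hB) (abs_nonneg _)
  have hu3'' : ∀ u ∈ B, (u.2.2 : ℝ) * |η| ≤ 1 := fun u hB => (hu3' u hB).trans (by
    have : (1 : ℝ) ≤ σ := by exact_mod_cast hσ1
    nlinarith)
  -- the error
  set ε : ℝ := Real.exp (X / 25) * (Real.exp (3 * E * (2 * σ)) * (2 * (y * (2 * σ)))) with hε
  have hε0 : 0 ≤ ε := by positivity
  have hcmp : ∀ (i1 i2 : ℕ), i1 + i2 ≤ T → ∀ (s : ℝ), 0 ≤ s → s ≤ 2 * σ → ∀ z : ℂ,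
      2 * z + 1 = s → ‖D.f B p i1 i2 z - (D.h B p i1 i2 s : ℂ)‖ ≤ ε := by
    intro i1 i2 hi s hs0 hs2 z hz1
    have hys' : y * s ≤ y * (2 * σ) := mul_le_mul_of_nonneg_left hs2 hy0
    refine (D.cmp hm0 H.hrel B p i1 i2 hE0 hu hu3' hy0 hs0 (hys'.trans hys1)
      (hQ i1 i2 hi) hz1).trans ?_
    rw [hε]
    refine mul_le_mul hQ2 ?_ (by positivity) (Real.exp_pos _).le
    refine mul_le_mul (Real.exp_le_exp.mpr ?_) (by linarith) (by positivity) (Real.exp_pos _).le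
    exact mul_le_mul_of_nonneg_left hs2 (by positivity)
  -- derivatives
  set Lr : ℝ := Real.exp G with hLr
  have hLr1 : 1 ≤ Lr := Real.one_le_exp hG0
  have hL2 : 2 * (Real.log D.α / D.m) + 2 * (Real.log D.β / D.m) ≤ Lr := by
    have hm1 : (1 : ℝ) ≤ D.m := by exact_mod_cast H.hm
    have k1 : Real.log D.α / D.m ≤ E :=
      (div_le_self (Real.log_natCast_nonneg _) hm1).trans H.hl1
    have k2 : Real.log D.β / D.m ≤ E :=
      (div_le_self (Real.log_natCast_nonneg _) hm1).trans H.hl2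
    linarith [H.hL]
  have hder : ∀ s < σ, ∀ r < τ, ‖iteratedDeriv r (D.f B p m1 m2) (s : ℂ)‖ ≤ Lr ^ τ * ε := by
    intro s hs r hr
    refine (D.iter_bound B p (s : ℂ) hε0 hL2 r m1 m2 ?_).trans ?_
    · intro i i' hii
      have h1 := hcmp (m1 + i) (m2 + i') (by omega) ((2 * s + 1 : ℕ) : ℝ) (Nat.cast_nonneg _)
        (by
          have : 2 * s + 1 ≤ 2 * σ := by omega
          exact_mod_cast this) (s : ℂ) (by push_cast; ring)
      rw [hz (m1 + i) (m2 + i') (by omega) s hs] at h1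
      simpa using h1
    · refine mul_le_mul_of_nonneg_right ?_ hε0
      exact pow_le_pow_right₀ hLr1 hr.le
  set K : ℝ := Real.exp (X / 25) * Real.exp ((2 * (16 * σ) + 1) * (3 * E + 1)) with hK
  have hsup : ∀ z : ℂ, ‖z‖ ≤ 16 * σ → ‖D.f B p m1 m2 z‖ ≤ K := by
    intro z hz1
    refine (D.growth hm0 H.hrel B p m1 m2 hu hu3'' (hQ m1 m2 (by omega)) hz1 hE0).trans ?_
    exact mul_le_mul_of_nonneg_right hQ2 (Real.exp_pos _).le
  have hsch := Pool.Agent.H78.BF.sch (D.f B p m1 m2) τ σ (Lr ^ τ * ε) K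
    (D.differentiable B p m1 m2) hτ1 hσ1 (by positivity) (by positivity) hder hsup
    (((((2 * j + 1 : ℕ) : ℝ) / 2 - 1) / 2 : ℝ) : ℂ) ?_
  swap
  · rw [Complex.norm_real, Real.norm_eq_abs, abs_le]
    have h1 : ((j : ℕ) : ℝ) ≤ σ := by exact_mod_cast hj.le
    have h2 : (0 : ℝ) ≤ j := Nat.cast_nonneg _
    have h3 : (1 : ℝ) ≤ σ := by exact_mod_cast hσ1
    push_cast
    constructor <;> linarith
  have hjσ : ((2 * j + 1 : ℕ) : ℝ) ≤ 2 * σ := by
    have : 2 * j + 1 ≤ 2 * σ := by omega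
    exact_mod_cast this
  have hc2 := hcmp m1 m2 (by omega) (((2 * j + 1 : ℕ) : ℝ) / 2) (by positivity) (by
    have : (0 : ℝ) ≤ ((2 * j + 1 : ℕ) : ℝ) := Nat.cast_nonneg _
    linarith)
    (((((2 * j + 1 : ℕ) : ℝ) / 2 - 1) / 2 : ℝ) : ℂ) (by push_cast; ring)
  -- the value
  have hval : |D.h B p m1 m2 (((2 * j + 1 : ℕ) : ℝ) / 2)| ≤
      Lr ^ τ * ε * (X * (1 + 6 * σ) ^ (2 * τ) * Real.exp (6 * σ * τ)) +
        2 * K * Real.exp (-X) + ε := by
    have h1 : ‖(D.h B p m1 m2 (((2 * j + 1 : ℕ) : ℝ) / 2) : ℂ)‖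
        = |D.h B p m1 m2 (((2 * j + 1 : ℕ) : ℝ) / 2)| := by
      rw [Complex.norm_real, Real.norm_eq_abs]
    rw [← h1]
    have h2 := norm_sub_norm_le (D.h B p m1 m2 (((2 * j + 1 : ℕ) : ℝ) / 2) : ℂ)
      (D.f B p m1 m2 (((((2 * j + 1 : ℕ) : ℝ) / 2 - 1) / 2 : ℝ) : ℂ))
    rw [norm_sub_rev] at h2
    linarith
  -- the three pieces
  have hexp1 : 1 + 6 * (σ : ℝ) ≤ Real.exp (6 * σ) := by linarith [Real.add_one_le_exp (6 * (σ : ℝ))]
  have hX0 : 0 < X := by rw [hX]; positivity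
  have hXe : X ≤ Real.exp X := by linarith [Real.add_one_le_exp X]
  have hε1 : ε ≤ Real.exp (X / 25 + 6 * (E * σ) + 1 + (G - 21 * X + 2 * σ)) := by
    have h2 : (2 : ℝ) ≤ Real.exp 1 := by linarith [Real.add_one_le_exp (1 : ℝ)]
    calc ε ≤ Real.exp (X / 25) * (Real.exp (3 * E * (2 * σ)) * (Real.exp 1
          * Real.exp (G - 21 * X + 2 * σ))) := by
          rw [hε]
          gcongr
      _ = Real.exp (X / 25 + 6 * (E * σ) + 1 + (G - 21 * X + 2 * σ)) := by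
          rw [← Real.exp_add, ← Real.exp_add, ← Real.exp_add]
          congr 1
          ring
  have hM : Lr ^ τ * (X * (1 + 6 * σ) ^ (2 * τ) * Real.exp (6 * σ * τ)) ≤
      Real.exp (G * τ + X + 12 * X + 6 * X) := by
    have e1 : Lr ^ τ = Real.exp (G * τ) := by
      rw [hLr, ← Real.exp_nat_mul]
      congr 1
      ring
    have e2 : (1 + 6 * (σ : ℝ)) ^ (2 * τ) ≤ Real.exp (12 * X) := by
      calc (1 + 6 * (σ : ℝ)) ^ (2 * τ) ≤ (Real.exp (6 * σ)) ^ (2 * τ) := by gcongr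
        _ = Real.exp (12 * X) := by
          rw [← Real.exp_nat_mul, hX]
          congr 1
          push_cast
          ring
    calc Lr ^ τ * (X * (1 + 6 * σ) ^ (2 * τ) * Real.exp (6 * σ * τ))
        ≤ Real.exp (G * τ) * (Real.exp X * Real.exp (12 * X) * Real.exp (6 * σ * τ)) := by
          rw [e1]
          gcongr
      _ = Real.exp (G * τ + X + 12 * X + 6 * X) := by
          rw [← Real.exp_add, ← Real.exp_add, ← Real.exp_add, hX]
          congr 1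
          ring
  have hp1 : Lr ^ τ * ε * (X * (1 + 6 * σ) ^ (2 * τ) * Real.exp (6 * σ * τ)) ≤
      Real.exp (-X) := by
    calc Lr ^ τ * ε * (X * (1 + 6 * σ) ^ (2 * τ) * Real.exp (6 * σ * τ))
        = (Lr ^ τ * (X * (1 + 6 * σ) ^ (2 * τ) * Real.exp (6 * σ * τ))) * ε := by ring
      _ ≤ Real.exp (G * τ + X + 12 * X + 6 * X)
          * Real.exp (X / 25 + 6 * (E * σ) + 1 + (G - 21 * X + 2 * σ)) := by
          exact mul_le_mul hM hε1 hε0 (Real.exp_pos _).le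
      _ ≤ Real.exp (-X) := by
          rw [← Real.exp_add]
          refine Real.exp_le_exp.mpr ?_
          linarith
  have hp2 : 2 * K * Real.exp (-X) ≤ Real.exp (-(X * (8 / 10))) := by
    have h2 : (2 : ℝ) ≤ Real.exp 1 := by linarith [Real.add_one_le_exp (1 : ℝ)]
    have h3 : (2 * (16 * (σ : ℝ)) + 1) * (3 * E + 1) ≤ 132 * (E * σ) := by
      have : (1 : ℝ) ≤ σ := by exact_mod_cast hσ1
      nlinarith [H.hE]
    calc 2 * K * Real.exp (-X) ≤ Real.exp 1 * (Real.exp (X / 25) * Real.exp (132 * (E * σ)))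
          * Real.exp (-X) := by
          rw [hK]
          gcongr
      _ = Real.exp (1 + (X / 25 + 132 * (E * σ)) + -X) := by
          rw [← Real.exp_add, ← Real.exp_add, ← Real.exp_add]
      _ ≤ Real.exp (-(X * (8 / 10))) := by
          refine Real.exp_le_exp.mpr ?_
          linarith
  have hp3 : ε ≤ Real.exp (-X) := by
    refine hε1.trans (Real.exp_le_exp.mpr ?_)
    linarith
  have hp0 : Real.exp (-X) ≤ Real.exp (-(X * (8 / 10))) := Real.exp_le_exp.mpr (by linarith)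
  have hfin : |D.h B p m1 m2 (((2 * j + 1 : ℕ) : ℝ) / 2)| ≤ 3 * Real.exp (-(X * (8 / 10))) := by
    linarith
  have hnum : Real.exp (X * (37 / 100)) * (3 * Real.exp (-(X * (8 / 10)))) < 1 := by
    have h0 : Real.exp (X * (37 / 100)) * (3 * Real.exp (-(X * (8 / 10))))
        = 3 * Real.exp (-(X * (43 / 100))) := by
      rw [mul_left_comm, ← Real.exp_add]
      congr 2
      ring
    have h1 : Real.exp (-(X * (43 / 100))) ≤ Real.exp (-3) :=
      Real.exp_le_exp.mpr (by linarith)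
    have h2 : Real.exp (-3) ≤ 1 / 4 := by
      rw [Real.exp_neg, one_div]
      refine inv_anti₀ (by norm_num) ?_
      linarith [Real.add_one_le_exp (3 : ℝ)]
    rw [h0]
    linarith
  have hcard : B.card * Q * Real.exp (3 * E * ((2 * j + 1 : ℕ) : ℝ))
      ≤ Real.exp (X / 25 + 6 * (E * σ)) := by
    rw [Real.exp_add]
    refine mul_le_mul hQ2 (Real.exp_le_exp.mpr ?_) (Real.exp_pos _).le (Real.exp_pos _).le
    calc 3 * E * ((2 * j + 1 : ℕ) : ℝ) ≤ 3 * E * (2 * σ) :=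
          mul_le_mul_of_nonneg_left hjσ (by positivity)
      _ = 6 * (E * σ) := by ring
  -- the Liouville factor
  have hLam : (8 * Real.exp (X / 25 + 6 * (E * σ)) * ((1 + (D.α : ℝ)) ^ 2 * (1 + (D.β : ℝ)) ^ 2
      * (1 + (D.γ : ℝ)) ^ 2)) ^ 8 ≤ Real.exp (X * (37 / 100)) := by
    exact lam_aux (by positivity) (by positivity) (by positivity) (one_add_sq_le H.hα H.hl1)
      (one_add_sq_le H.hβ H.hl2) (one_add_sq_le H.hγ H.hl3) (by linarith)
  exact D.half_zero hα0 hβ0 hγ0 hsq B p m1 m2 (s := 2 * j + 1) ⟨j, rfl⟩ (Q := Q) (E := E)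
    (Y := Real.exp (X / 25 + 6 * (E * σ))) (hQ m1 m2 (by omega)) hu
    (Real.one_le_exp (by positivity)) hcard hQ0
    ((mul_le_mul hLam hfin (abs_nonneg _) (Real.exp_pos _).le).trans_lt hnum) e

end

end Pool.Agent.H25.NB
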