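import Pool.Agent.H25.NB.Bound

/-!
# Finiteness in the region `d^θ <= k`, `θ > 2/3`
-/

set_option autoImplicit false

namespace Pool.Agent.H25.NB

open Finset Pool.Agent.H26.NL Pool.Agent.H25.NP

/-- The dimension is bounded. -/
lemma dim_bound {θ : ℝ} (hθ : 2 / 3 < θ) : ∃ d0 : ℕ, ∀ d k : ℕ, 2 ≤ d →
    (k : ℝ) ^ 3 ≤ 10 ^ 31 * ((d : ℝ) ^ 2 * Real.log d ^ 8) → (d : ℝ) ^ θ ≤ k → d ≤ d0 := by
  set ε : ℝ := (3 * θ - 2) / 16 with hε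
  have hε0 : 0 < ε := by rw [hε]; linarith
  set C : ℝ := 10 ^ 31 / ε ^ 8 with hC
  have hC0 : 0 < C := by positivity
  refine ⟨⌈C ^ (1 / (8 * ε))⌉₊, fun d k hd h1 h2 => ?_⟩
  have hd0 : (0 : ℝ) < d := by exact_mod_cast (by omega : 0 < d)
  have hd1 : (1 : ℝ) ≤ d := by exact_mod_cast (by omega : 1 ≤ d)
  have h3 : ((d : ℝ) ^ θ) ^ 3 ≤ 10 ^ 31 * ((d : ℝ) ^ 2 * Real.log d ^ 8) :=
    (pow_le_pow_left₀ (by positivity) h2 3).trans h1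
  have h4 : Real.log d ≤ (d : ℝ) ^ ε / ε := Real.log_le_rpow_div hd0.le hε0
  have h5 : Real.log d ^ 8 ≤ ((d : ℝ) ^ ε / ε) ^ 8 :=
    pow_le_pow_left₀ (Real.log_nonneg hd1) h4 8
  have e1 : ((d : ℝ) ^ θ) ^ 3 = (d : ℝ) ^ 2 * ((d : ℝ) ^ (8 * ε) * (d : ℝ) ^ (8 * ε)) := by
    rw [← Real.rpow_natCast, ← Real.rpow_mul hd0.le, ← Real.rpow_natCast (d : ℝ) 2,
      ← Real.rpow_add hd0, ← Real.rpow_add hd0]
    congr 1
    rw [hε]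
    push_cast
    ring
  have e2 : ((d : ℝ) ^ ε / ε) ^ 8 = (d : ℝ) ^ (8 * ε) / ε ^ 8 := by
    rw [div_pow, ← Real.rpow_natCast, ← Real.rpow_mul hd0.le, mul_comm ε]
    norm_num
  rw [e1] at h3
  rw [e2] at h5
  have h6 : (d : ℝ) ^ 2 * ((d : ℝ) ^ (8 * ε) * (d : ℝ) ^ (8 * ε))
      ≤ (d : ℝ) ^ 2 * (C * (d : ℝ) ^ (8 * ε)) := by
    refine h3.trans ?_
    calc 10 ^ 31 * ((d : ℝ) ^ 2 * Real.log d ^ 8)
        ≤ 10 ^ 31 * ((d : ℝ) ^ 2 * ((d : ℝ) ^ (8 * ε) / ε ^ 8)) := by gcongr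
      _ = (d : ℝ) ^ 2 * (C * (d : ℝ) ^ (8 * ε)) := by rw [hC]; ring
  have h7 : (d : ℝ) ^ (8 * ε) ≤ C :=
    le_of_mul_le_mul_right (le_of_mul_le_mul_left h6 (by positivity)) (by positivity)
  have h8 : (d : ℝ) ≤ C ^ (1 / (8 * ε)) := by
    have h9 := Real.rpow_le_rpow (by positivity) h7 (show 0 ≤ 1 / (8 * ε) by positivity)
    rwa [← Real.rpow_mul hd0.le, mul_one_div_cancel (by positivity), Real.rpow_one] at h9
  exact_mod_cast h8.trans (Nat.le_ceil _)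

/-- The solutions. -/
def IsSol (r e d p k : ℕ) : Prop :=
  r.Prime ∧ 1 ≤ e ∧ p.Prime ∧ 4 ≤ d ∧ 1 < k ∧ Odd k ∧ k ∣ r - 1 ∧
    ((r ^ e) ^ d - 1) / (r ^ e - 1) = p ^ k

lemma bounded_finite (d0 : ℕ) :
    {x : ℕ × ℕ × ℕ × ℕ × ℕ | IsSol x.1 x.2.1 x.2.2.1 x.2.2.2.1 x.2.2.2.2 ∧ x.2.2.1 ≤ d0}.Finite := by
  set R : ℕ := (4 * d0) ^ (4 * (d0 + 5)) with hR
  refine Set.Finite.subset (((Set.finite_Iic R).prod ((Set.finite_Iic 1).prod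
    ((Set.finite_Iic d0).prod ((Set.finite_Iic (R ^ d0)).prod (Set.finite_Iic d0)))))) ?_
  rintro ⟨r, e, d, p, k⟩ ⟨⟨hr, he, hp, hd4, hk, hodd, hkr, h⟩, hdd⟩
  simp only at hr he hp hd4 hk hodd hkr h hdd
  obtain ⟨hkd, h7, hdp, hr7, hk3⟩ := k_lt hd4 hp hr he hk hodd hkr h
  have he1 := Pool.Agent.H25.NQ.base_prime hr he hp hd4 hk hodd hkr h
  have hH := Pool.Agent.H25.NW.heightBound' (c := 2) (D := d + 5) hr he hp hd4 hk hodd hkr h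
    (Or.inl rfl) (Nat.mul_le_mul_right _ (by omega))
  rw [he1, pow_one] at hH
  have hrR : r ≤ R := by
    refine hH.trans ?_
    rw [hR]
    calc (4 * k) ^ (4 * (d + 5)) ≤ (4 * d0) ^ (4 * (d + 5)) :=
          Nat.pow_le_pow_left (by omega) _
      _ ≤ (4 * d0) ^ (4 * (d0 + 5)) := Nat.pow_le_pow_right (by omega) (by omega)
  have S := sol_of_eq (by omega) hp hr he hk h
  rw [he1, pow_one] at S
  have hdf : Fact d.Prime := ⟨hdp⟩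
  have hpR : p ≤ R ^ d0 := by
    have h1 := S.q_pow
    have h2 : p ^ k ≤ (r - 1) * p ^ k := Nat.le_mul_of_pos_left _ (by omega)
    calc p = p ^ 1 := (pow_one p).symm
      _ ≤ p ^ k := Nat.pow_le_pow_right hp.pos hk.le
      _ ≤ r ^ d := by omega
      _ ≤ R ^ d := Nat.pow_le_pow_left hrR d
      _ ≤ R ^ d0 := Nat.pow_le_pow_right (by omega) hdd
  simp only [Set.mem_prod, Set.mem_Iic]
  exact ⟨hrR, he1.le, hdd, hpR, by omega⟩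

/-- Finiteness in the region `d^θ <= k`. -/
theorem region_finite {θ : ℝ} (hθ : 2 / 3 < θ) :
    {x : ℕ × ℕ × ℕ × ℕ × ℕ | IsSol x.1 x.2.1 x.2.2.1 x.2.2.2.1 x.2.2.2.2 ∧
      (x.2.2.1 : ℝ) ^ θ ≤ (x.2.2.2.2 : ℝ)}.Finite := by
  obtain ⟨d0, hd0⟩ := dim_bound hθ
  refine (bounded_finite d0).subset ?_
  rintro ⟨r, e, d, p, k⟩ ⟨hs, hθ'⟩
  refine ⟨hs, ?_⟩
  obtain ⟨hr, he, hp, hd4, hk, hodd, hkr, h⟩ := hs
  simp only at hr he hp hd4 hk hodd hkr h hθ' ⊢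
  exact hd0 d k (by omega) (exponent_bound hd4 hp hr he hk hodd hkr h) hθ'

end Pool.Agent.H25.NB
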