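import Pool.Agent.H72.BF.Targets

/-!
# The auxiliary functions for a linear form in three logarithms of integers

`m * c = d * a - k * b + η` with `a, b, c` the logarithms of integers `α, β, γ`.
-/

set_option autoImplicit false

namespace Pool.Agent.H25.NB

open Finset

noncomputable section

/-- The data. -/
structure DT where
  α : ℕ
  β : ℕ
  γ : ℕ
  m : ℕ
  d : ℕ
  k : ℕ

/-- The exponents. -/
abbrev IX : Type := ℕ × ℕ × ℕ

/-- First integral exponent. -/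
def DT.A1 (D : DT) (u : IX) : ℤ := D.m * u.1 + D.d * u.2.2

/-- Second integral exponent. -/
def DT.A2 (D : DT) (u : IX) : ℤ := D.m * u.2.1 - D.k * u.2.2

/-- The monomial. -/
def DT.w (D : DT) (u : IX) : ℕ := D.α ^ u.1 * D.β ^ u.2.1 * D.γ ^ u.2.2

/-- The logarithm of the monomial. -/
def DT.lw (D : DT) (u : IX) : ℝ :=
  u.1 * Real.log D.α + u.2.1 * Real.log D.β + u.2.2 * Real.log D.γ

/-- The exponent. -/
def DT.om (D : DT) (u : IX) : ℝ :=
  D.A1 u * (Real.log D.α / D.m) + D.A2 u * (Real.log D.β / D.m)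

/-- The coefficient. -/
def DT.co (D : DT) (p : IX → ℤ) (m1 m2 : ℕ) (u : IX) : ℤ := p u * (D.A1 u ^ m1 * D.A2 u ^ m2)

/-- The exact values. -/
def DT.h (D : DT) (B : Finset IX) (p : IX → ℤ) (m1 m2 : ℕ) (s : ℝ) : ℝ :=
  ∑ u ∈ B, (D.co p m1 m2 u : ℝ) * Real.exp (s * D.lw u)

/-- The entire functions. -/
def DT.f (D : DT) (B : Finset IX) (p : IX → ℤ) (m1 m2 : ℕ) (z : ℂ) : ℂ :=
  ∑ u ∈ B, (D.co p m1 m2 u : ℂ) * Complex.exp ((D.om u : ℂ) * (2 * z + 1))

variable (D : DT)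

lemma DT.lw_eq (hα : D.α ≠ 0) (hβ : D.β ≠ 0) (hγ : D.γ ≠ 0) (u : IX) :
    D.lw u = Real.log (D.w u) := by
  have h1 : (D.α : ℝ) ≠ 0 := by exact_mod_cast hα
  have h2 : (D.β : ℝ) ≠ 0 := by exact_mod_cast hβ
  have h3 : (D.γ : ℝ) ≠ 0 := by exact_mod_cast hγ
  unfold DT.lw DT.w
  push_cast
  rw [Real.log_mul (by positivity) (by positivity), Real.log_mul (by positivity) (by positivity),
    Real.log_pow, Real.log_pow, Real.log_pow]

lemma DT.lw_nonneg (u : IX) : 0 ≤ D.lw u := by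
  unfold DT.lw
  have h1 := Real.log_natCast_nonneg D.α
  have h2 := Real.log_natCast_nonneg D.β
  have h3 := Real.log_natCast_nonneg D.γ
  positivity

/-- The exact relation between the two exponents. -/
lemma DT.om_eq {η : ℝ} (hm : D.m ≠ 0)
    (hrel : D.m * Real.log D.γ = D.d * Real.log D.α - D.k * Real.log D.β + η) (u : IX) :
    D.om u = D.lw u - u.2.2 * (η / D.m) := by
  have h0 : (D.m : ℝ) ≠ 0 := by exact_mod_cast hm
  have h1 : Real.log D.γ = (D.d * Real.log D.α - D.k * Real.log D.β + η) / D.m := by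
    rw [eq_div_iff h0, ← hrel]
    ring
  unfold DT.om DT.lw DT.A1 DT.A2
  rw [h1]
  push_cast
  field_simp
  ring

lemma DT.hasDerivAt (B : Finset IX) (p : IX → ℤ) (m1 m2 : ℕ) (z : ℂ) :
    HasDerivAt (D.f B p m1 m2) (((2 * (Real.log D.α / D.m) : ℝ) : ℂ) * D.f B p (m1 + 1) m2 z
      + ((2 * (Real.log D.β / D.m) : ℝ) : ℂ) * D.f B p m1 (m2 + 1) z) z := by
  have h1 : HasDerivAt (D.f B p m1 m2)
      (∑ u ∈ B, (D.co p m1 m2 u : ℂ)
        * (Complex.exp ((D.om u : ℂ) * (2 * z + 1)) * ((D.om u : ℂ) * 2))) z := by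
    unfold DT.f
    refine HasDerivAt.fun_sum fun u _ => ?_
    refine HasDerivAt.const_mul _ ?_
    have h2 : HasDerivAt (fun z : ℂ => (D.om u : ℂ) * (2 * z + 1)) ((D.om u : ℂ) * 2) z := by
      have h3 : HasDerivAt (fun z : ℂ => 2 * z + 1) (2 : ℂ) z := by
        simpa using ((hasDerivAt_id z).const_mul (2 : ℂ)).add_const (1 : ℂ)
      exact h3.const_mul (D.om u : ℂ)
    exact h2.cexp
  have h4 : (((2 * (Real.log D.α / D.m) : ℝ) : ℂ) * D.f B p (m1 + 1) m2 z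
      + ((2 * (Real.log D.β / D.m) : ℝ) : ℂ) * D.f B p m1 (m2 + 1) z)
      = ∑ u ∈ B, (D.co p m1 m2 u : ℂ)
        * (Complex.exp ((D.om u : ℂ) * (2 * z + 1)) * ((D.om u : ℂ) * 2)) := by
    unfold DT.f
    rw [Finset.mul_sum, Finset.mul_sum, ← Finset.sum_add_distrib]
    refine Finset.sum_congr rfl fun u _ => ?_
    have h3 : (D.om u : ℂ) = (D.A1 u : ℂ) * ((Real.log D.α / D.m : ℝ) : ℂ)
        + (D.A2 u : ℂ) * ((Real.log D.β / D.m : ℝ) : ℂ) := by
      unfold DT.om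
      push_cast
      ring
    unfold DT.co
    rw [h3]
    push_cast
    ring
  rw [h4]
  exact h1

lemma DT.differentiable (B : Finset IX) (p : IX → ℤ) (m1 m2 : ℕ) :
    Differentiable ℂ (D.f B p m1 m2) :=
  fun z => (D.hasDerivAt B p m1 m2 z).differentiableAt

lemma DT.contDiff (B : Finset IX) (p : IX → ℤ) (m1 m2 : ℕ) : ContDiff ℂ ⊤ (D.f B p m1 m2) :=
  (D.differentiable B p m1 m2).contDiff

/-- Bound for the iterated derivatives. -/
lemma DT.iter_bound (B : Finset IX) (p : IX → ℤ) (s : ℂ) {ε L : ℝ} (hε : 0 ≤ ε)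
    (hL : 2 * (Real.log D.α / D.m) + 2 * (Real.log D.β / D.m) ≤ L) :
    ∀ r m1 m2 : ℕ, (∀ i j : ℕ, i + j = r → ‖D.f B p (m1 + i) (m2 + j) s‖ ≤ ε) →
      ‖iteratedDeriv r (D.f B p m1 m2) s‖ ≤ L ^ r * ε := by
  have ha : 0 ≤ 2 * (Real.log D.α / D.m) := by
    have := Real.log_natCast_nonneg D.α
    positivity
  have hb : 0 ≤ 2 * (Real.log D.β / D.m) := by
    have := Real.log_natCast_nonneg D.β
    positivity
  have hL0 : 0 ≤ L := by linarith
  intro r
  induction r with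
  | zero =>
    intro m1 m2 h
    have := h 0 0 rfl
    simpa using this
  | succ r ih =>
    intro m1 m2 h
    have h1 : deriv (D.f B p m1 m2) = fun z =>
        ((2 * (Real.log D.α / D.m) : ℝ) : ℂ) * D.f B p (m1 + 1) m2 z
        + ((2 * (Real.log D.β / D.m) : ℝ) : ℂ) * D.f B p m1 (m2 + 1) z :=
      funext fun z => (D.hasDerivAt B p m1 m2 z).deriv
    have hc1 : ContDiffAt ℂ r
        (fun z => ((2 * (Real.log D.α / D.m) : ℝ) : ℂ) * D.f B p (m1 + 1) m2 z) s :=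
      (contDiff_const.mul ((D.contDiff B p (m1 + 1) m2).of_le le_top)).contDiffAt
    have hc2 : ContDiffAt ℂ r
        (fun z => ((2 * (Real.log D.β / D.m) : ℝ) : ℂ) * D.f B p m1 (m2 + 1) z) s :=
      (contDiff_const.mul ((D.contDiff B p m1 (m2 + 1)).of_le le_top)).contDiffAt
    rw [iteratedDeriv_succ', h1, iteratedDeriv_fun_add hc1 hc2,
      iteratedDeriv_const_mul_field, iteratedDeriv_const_mul_field]
    have e1 := ih (m1 + 1) m2 fun i j hij => by
      have := h (i + 1) j (by omega)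
      have e : m1 + 1 + i = m1 + (i + 1) := by ring
      rwa [e]
    have e2 := ih m1 (m2 + 1) fun i j hij => by
      have := h i (j + 1) (by omega)
      have e : m2 + 1 + j = m2 + (j + 1) := by ring
      rwa [e]
    refine (norm_add_le _ _).trans ?_
    rw [norm_mul, norm_mul, Complex.norm_real, Complex.norm_real, Real.norm_of_nonneg ha,
      Real.norm_of_nonneg hb]
    calc 2 * (Real.log D.α / D.m) * ‖iteratedDeriv r (D.f B p (m1 + 1) m2) s‖
          + 2 * (Real.log D.β / D.m) * ‖iteratedDeriv r (D.f B p m1 (m2 + 1)) s‖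
        ≤ 2 * (Real.log D.α / D.m) * (L ^ r * ε) + 2 * (Real.log D.β / D.m) * (L ^ r * ε) := by
          gcongr
      _ = (2 * (Real.log D.α / D.m) + 2 * (Real.log D.β / D.m)) * (L ^ r * ε) := by ring
      _ ≤ L * (L ^ r * ε) := by gcongr
      _ = L ^ (r + 1) * ε := by ring

/-- Comparison of the two exponentials. -/
lemma DT.exp_cmp {η E y s : ℝ} (hm : D.m ≠ 0)
    (hrel : D.m * Real.log D.γ = D.d * Real.log D.α - D.k * Real.log D.β + η) (u : IX)
    (hu : D.lw u ≤ 3 * E) (hu3 : (u.2.2 : ℝ) * |η| ≤ y) (hs : 0 ≤ s) (hys : y * s ≤ 1) :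
    |Real.exp (D.om u * s) - Real.exp (s * D.lw u)| ≤ Real.exp (3 * E * s) * (2 * (y * s)) := by
  have h1 := D.om_eq hm hrel u
  have h2 : D.om u * s = s * D.lw u + -(u.2.2 * (η / D.m) * s) := by rw [h1]; ring
  have h3 : |-((u.2.2 : ℝ) * (η / D.m) * s)| ≤ y * s := by
    rw [abs_neg, abs_mul, abs_mul, abs_div, abs_of_nonneg hs, Nat.abs_cast, Nat.abs_cast]
    refine mul_le_mul_of_nonneg_right (le_trans ?_ hu3) hs
    refine mul_le_mul_of_nonneg_left ?_ (Nat.cast_nonneg _)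
    refine div_le_self (abs_nonneg _) ?_
    exact_mod_cast Nat.one_le_iff_ne_zero.mpr hm
  rw [h2, Real.exp_add]
  have h4 : Real.exp (s * D.lw u) * Real.exp (-(u.2.2 * (η / D.m) * s)) - Real.exp (s * D.lw u)
      = Real.exp (s * D.lw u) * (Real.exp (-(u.2.2 * (η / D.m) * s)) - 1) := by ring
  rw [h4, abs_mul, abs_of_pos (Real.exp_pos _)]
  have h5 := Real.abs_exp_sub_one_le (h3.trans hys)
  have h6 : s * D.lw u ≤ 3 * E * s := by nlinarith
  have h7 := Real.exp_le_exp.mpr h6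
  refine mul_le_mul h7 (h5.trans ?_) (abs_nonneg _) (Real.exp_pos _).le
  linarith

/-- Comparison of the values. -/
lemma DT.cmp {η E y s Q : ℝ} (hm : D.m ≠ 0)
    (hrel : D.m * Real.log D.γ = D.d * Real.log D.α - D.k * Real.log D.β + η)
    (B : Finset IX) (p : IX → ℤ) (m1 m2 : ℕ) (hE : 0 ≤ E)
    (hu : ∀ u ∈ B, D.lw u ≤ 3 * E) (hu3 : ∀ u ∈ B, (u.2.2 : ℝ) * |η| ≤ y) (hy : 0 ≤ y)
    (hs : 0 ≤ s) (hys : y * s ≤ 1) (hQ : ∀ u ∈ B, |(D.co p m1 m2 u : ℝ)| ≤ Q) {z : ℂ}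
    (hz : 2 * z + 1 = s) :
    ‖D.f B p m1 m2 z - (D.h B p m1 m2 s : ℂ)‖ ≤
      B.card * Q * (Real.exp (3 * E * s) * (2 * (y * s))) := by
  unfold DT.f DT.h
  rw [hz]
  push_cast
  rw [← Finset.sum_sub_distrib]
  refine (norm_sum_le _ _).trans ?_
  have : ∀ u ∈ B, ‖(D.co p m1 m2 u : ℂ) * Complex.exp ((D.om u : ℂ) * (s : ℂ))
      - (D.co p m1 m2 u : ℂ) * Complex.exp ((s : ℂ) * (D.lw u : ℂ))‖
      ≤ Q * (Real.exp (3 * E * s) * (2 * (y * s))) := by
    intro u hB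
    rw [← mul_sub, norm_mul]
    have h1 : ‖(D.co p m1 m2 u : ℂ)‖ = |(D.co p m1 m2 u : ℝ)| := by
      rw [Complex.norm_intCast]
    have h2 : Complex.exp ((D.om u : ℂ) * (s : ℂ)) - Complex.exp ((s : ℂ) * (D.lw u : ℂ))
        = ((Real.exp (D.om u * s) - Real.exp (s * D.lw u) : ℝ) : ℂ) := by
      push_cast
      rfl
    rw [h1, h2, Complex.norm_real, Real.norm_eq_abs]
    have h3 := D.exp_cmp hm hrel u (hu u hB) (hu3 u hB) hs hys
    exact mul_le_mul (hQ u hB) h3 (abs_nonneg _) ((abs_nonneg _).trans (hQ u hB))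
  refine (Finset.sum_le_sum this).trans ?_
  rw [Finset.sum_const, nsmul_eq_mul]
  exact le_of_eq (by ring)

/-- Growth. -/
lemma DT.growth {η E Q R : ℝ} (hm : D.m ≠ 0)
    (hrel : D.m * Real.log D.γ = D.d * Real.log D.α - D.k * Real.log D.β + η)
    (B : Finset IX) (p : IX → ℤ) (m1 m2 : ℕ)
    (hu : ∀ u ∈ B, D.lw u ≤ 3 * E) (hu3 : ∀ u ∈ B, (u.2.2 : ℝ) * |η| ≤ 1)
    (hQ : ∀ u ∈ B, |(D.co p m1 m2 u : ℝ)| ≤ Q) {z : ℂ} (hz : ‖z‖ ≤ R) (hE : 0 ≤ E) :
    ‖D.f B p m1 m2 z‖ ≤ B.card * Q * Real.exp ((2 * R + 1) * (3 * E + 1)) := by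
  unfold DT.f
  refine (norm_sum_le _ _).trans ?_
  have : ∀ u ∈ B, ‖(D.co p m1 m2 u : ℂ) * Complex.exp ((D.om u : ℂ) * (2 * z + 1))‖
      ≤ Q * Real.exp ((2 * R + 1) * (3 * E + 1)) := by
    intro u hB
    rw [norm_mul]
    have h1 : ‖(D.co p m1 m2 u : ℂ)‖ = |(D.co p m1 m2 u : ℝ)| := by
      rw [Complex.norm_intCast]
    rw [h1]
    refine mul_le_mul (hQ u hB) ?_ (norm_nonneg _) ((abs_nonneg _).trans (hQ u hB))
    rw [Complex.norm_exp]
    refine Real.exp_le_exp.mpr ?_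
    refine (Complex.re_le_norm _).trans ?_
    rw [norm_mul, Complex.norm_real, Real.norm_eq_abs, mul_comm]
    have h2 : ‖2 * z + 1‖ ≤ 2 * R + 1 := by
      refine (norm_add_le _ _).trans ?_
      rw [norm_mul]
      simp only [Complex.norm_ofNat, norm_one]
      linarith
    have h3 : |D.om u| ≤ 3 * E + 1 := by
      rw [D.om_eq hm hrel u]
      have h4 : |((u.2.2 : ℝ) * (η / D.m))| ≤ 1 := by
        rw [abs_mul, abs_div, Nat.abs_cast, Nat.abs_cast]
        refine le_trans ?_ (hu3 u hB)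
        refine mul_le_mul_of_nonneg_left ?_ (Nat.cast_nonneg _)
        refine div_le_self (abs_nonneg _) ?_
        exact_mod_cast Nat.one_le_iff_ne_zero.mpr hm
      have h5 := D.lw_nonneg u
      have h6 := hu u hB
      have h7 := abs_le.mp h4
      rw [abs_le]
      constructor <;> linarith [h7.1, h7.2]
    exact mul_le_mul h2 h3 (abs_nonneg _) ((norm_nonneg _).trans h2)
  refine (Finset.sum_le_sum this).trans ?_
  rw [Finset.sum_const, nsmul_eq_mul]
  exact le_of_eq (by ring)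

end

end Pool.Agent.H25.NB
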