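import Pool.Agent.H25.NB.Three

/-!
# Choice of the parameters
-/

set_option autoImplicit false

namespace Pool.Agent.H25.NB

open Finset

noncomputable section

lemma two_pow_log {x y : ℝ} (hy : 0 < y) (hxy : y ≤ x) :
    (2 : ℝ) ^ (Nat.log 2 ⌊x / y⌋₊) * y ≤ x ∧ x ≤ 2 * y * (2 : ℝ) ^ (Nat.log 2 ⌊x / y⌋₊) := by
  have h1 : 1 ≤ x / y := by
    rw [le_div_iff₀ hy]
    linarith
  have h2 : 1 ≤ ⌊x / y⌋₊ := Nat.le_floor (by exact_mod_cast h1)
  have h3 : 2 ^ (Nat.log 2 ⌊x / y⌋₊) ≤ ⌊x / y⌋₊ := Nat.pow_log_le_self 2 (by omega)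
  have h4 : ⌊x / y⌋₊ < 2 ^ (Nat.log 2 ⌊x / y⌋₊).succ := Nat.lt_pow_succ_log_self (by norm_num) _
  constructor
  · have h5 : (2 : ℝ) ^ (Nat.log 2 ⌊x / y⌋₊) ≤ x / y := by
      have h6 : ((2 ^ (Nat.log 2 ⌊x / y⌋₊) : ℕ) : ℝ) ≤ (⌊x / y⌋₊ : ℝ) := by exact_mod_cast h3
      push_cast at h6
      exact h6.trans (Nat.floor_le (by linarith))
    rwa [le_div_iff₀ hy] at h5
  · have h5 : x / y ≤ 2 * (2 : ℝ) ^ (Nat.log 2 ⌊x / y⌋₊) := by
      have h6 : ((⌊x / y⌋₊ + 1 : ℕ) : ℝ) ≤ ((2 ^ (Nat.log 2 ⌊x / y⌋₊).succ : ℕ) : ℝ) := by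
        exact_mod_cast h4
      push_cast at h6
      have h7 := Nat.lt_floor_add_one (x / y)
      rw [pow_succ] at h6
      linarith
    rw [div_le_iff₀ hy] at h5
    linarith

/-- The bound with the parameters chosen. -/
theorem param {q p g m d k : ℕ} {η G E : ℝ} (hq : 2 ≤ q) (hp : 2 ≤ p) (hg : 2 ≤ g) (hm : 1 ≤ m)
    (hsq : ∀ e : Fin 3 → Fin 2, e ≠ 0 →
      ¬ IsSquare (∏ i, (DT.av ⟨q, p, g, m, d, k⟩) i ^ (e i : ℕ)))
    (ha : 1 ≤ Real.log q) (hb : 1 ≤ Real.log p) (hgq : Real.log g ≤ Real.log q)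
    (hrel : m * Real.log g = d * Real.log q - k * Real.log p + η)
    (hη : |η| ≤ Real.exp (-(d * Real.log q - 1))) (hG : 1 ≤ G)
    (hE : E = 5 * 10 ^ 10 * (Real.log q ^ 2 * Real.log p * G ^ 4))
    (hGE : (m + d + k : ℝ) * E ≤ Real.exp G) (h4E : 4 * E ≤ Real.exp G) :
    d * Real.log q - 1 < 6327321 * (E * G ^ 2) := by
  by_contra hcon
  rw [not_lt] at hcon
  set a := Real.log q with hadef
  set b := Real.log p with hbdef
  have hG4 : 1 ≤ G ^ 4 := one_le_pow₀ hG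
  have haa : a ≤ a ^ 2 := by nlinarith
  have hab1 : 1 ≤ a ^ 2 * b := by nlinarith
  have haE : a ≤ E := by
    rw [hE]
    have : a ≤ a ^ 2 * b := by nlinarith
    nlinarith
  have hbE : b ≤ E := by
    rw [hE]
    have : b ≤ a ^ 2 * b := by nlinarith
    nlinarith
  have hE1 : 1 ≤ E := ha.trans haE
  obtain ⟨u1, v1⟩ := two_pow_log (x := E) (y := a) (by linarith) haE
  obtain ⟨u2, v2⟩ := two_pow_log (x := E) (y := b) (by linarith) hbE
  set n1 := Nat.log 2 ⌊E / a⌋₊ with hn1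
  set n2 := Nat.log 2 ⌊E / b⌋₊ with hn2
  set N1 : ℝ := (2 : ℝ) ^ n1 with hN1
  set N2 : ℝ := (2 : ℝ) ^ n2 with hN2
  have hN10 : 1 ≤ N1 := one_le_pow₀ (by norm_num)
  have hN20 : 1 ≤ N2 := one_le_pow₀ (by norm_num)
  have hN1E : N1 ≤ E := by nlinarith
  have hN2E : N2 ≤ E := by nlinarith
  have hEG : E ≤ Real.exp G := by linarith
  set τ := ⌈1000 * E⌉₊ with hτ
  set σ := ⌈300 * G ^ 2⌉₊ with hσ
  set J := ⌊2 * G⌋₊ with hJ
  have t1 : 1000 * E ≤ τ := Nat.le_ceil _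
  have t2 : (τ : ℝ) ≤ 1001 * E := by
    have := (Nat.ceil_lt_add_one (show (0 : ℝ) ≤ 1000 * E by linarith)).le
    linarith
  have s1 : 300 * G ^ 2 ≤ σ := Nat.le_ceil _
  have s2 : (σ : ℝ) ≤ 301 * G ^ 2 := by
    have := (Nat.ceil_lt_add_one (show (0 : ℝ) ≤ 300 * G ^ 2 by positivity)).le
    nlinarith
  have j1 : (J : ℝ) ≤ 2 * G := Nat.floor_le (by linarith)
  have hnJ : ∀ n : ℕ, (2 : ℝ) ^ n ≤ E → n ≤ J := by
    intro n hn
    refine Nat.le_floor ?_
    have h1 : (2 : ℝ) ^ n ≤ Real.exp G := hn.trans hEG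
    have h2 := Real.log_le_log (by positivity) h1
    rw [Real.log_exp, Real.log_pow] at h2
    have h3 := Real.log_two_gt_d9
    have h4 : (0 : ℝ) ≤ n := Nat.cast_nonneg _
    nlinarith
  have hGG : G ≤ G ^ 2 := by nlinarith
  have hSz : Sz ⟨q, p, g, m, d, k⟩ τ σ E G η := by
    refine ⟨hq, hp, hg, hm, hrel, hE1, hG, t1, by linarith, ?_, haE, hbE, hgq.trans haE, h4E⟩
    refine hη.trans (Real.exp_le_exp.mpr ?_)
    have h1 : (τ * σ : ℝ) ≤ (1001 * E) * (301 * G ^ 2) :=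
      mul_le_mul t2 s2 (Nat.cast_nonneg _) (by positivity)
    linarith
  have hm0 : (0 : ℝ) ≤ m := Nat.cast_nonneg _
  have hd0 : (0 : ℝ) ≤ d := Nat.cast_nonneg _
  have hk0 : (0 : ℝ) ≤ k := Nat.cast_nonneg _
  have hBd : Bd ⟨q, p, g, m, d, k⟩ n1 n2 n1 E G := by
    refine ⟨u1, u2, ?_, ?_, ?_, ?_, hN1E.trans hEG⟩
    · exact (mul_le_mul_of_nonneg_left hgq (by positivity)).trans u1
    · refine le_trans ?_ hGE
      have e1 := mul_le_mul_of_nonneg_left hN1E hm0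
      have e2 := mul_le_mul_of_nonneg_left hN1E hd0
      have e3 : 0 ≤ (k : ℝ) * E := by positivity
      calc (m : ℝ) * N1 + d * N1 ≤ m * E + d * E + k * E := by linarith
        _ = (m + d + k : ℝ) * E := by ring
    · refine le_trans ?_ hGE
      have e1 := mul_le_mul_of_nonneg_left hN2E hm0
      have e2 := mul_le_mul_of_nonneg_left hN1E hk0
      have e3 : 0 ≤ (d : ℝ) * E := by positivity
      calc (m : ℝ) * N2 + k * N1 ≤ m * E + d * E + k * E := by linarith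
        _ = (m + d + k : ℝ) * E := by ring
    · have e1 : Real.exp (3 * G) = Real.exp G * (Real.exp G * Real.exp G) := by
        rw [← Real.exp_add, ← Real.exp_add]
        congr 1
        ring
      rw [e1]
      exact mul_le_mul (hN1E.trans hEG) (mul_le_mul (hN2E.trans hEG) (hN1E.trans hEG)
        (by positivity) (by positivity)) (by positivity) (by positivity)
  refine three_logs hSz hsq (hnJ n1 hN1E) (hnJ n2 hN2E) (hnJ n1 hN1E) ?_ hBd ?_
  · nlinarith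
  · have hreal : (2 : ℝ) * ((τ * (J + 1) + 1) * ((τ * (J + 1) + 1) * σ)) ≤ N1 * (N2 * N1) := by
      have hJ0 : (0 : ℝ) ≤ J := Nat.cast_nonneg _
      have hτ0 : (0 : ℝ) ≤ τ := Nat.cast_nonneg _
      have w1 : (τ : ℝ) * (J + 1) + 1 ≤ 3004 * (E * G) := by
        have h1 : (τ : ℝ) * (J + 1) ≤ (1001 * E) * (3 * G) :=
          mul_le_mul t2 (by linarith) (by positivity) (by positivity)
        nlinarith
      have w2 : (2 : ℝ) * ((τ * (J + 1) + 1) * ((τ * (J + 1) + 1) * σ))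
          ≤ 2 * ((3004 * (E * G)) * ((3004 * (E * G)) * (301 * G ^ 2))) := by
        have h1 : ((τ : ℝ) * (J + 1) + 1) * σ ≤ (3004 * (E * G)) * (301 * G ^ 2) :=
          mul_le_mul w1 s2 (Nat.cast_nonneg _) (by positivity)
        have h2 := mul_le_mul w1 h1 (by positivity) (by positivity)
        linarith
      refine w2.trans ?_
      have w3 : E * (E * E) ≤ (2 * a * N1) * ((2 * b * N2) * (2 * a * N1)) :=
        mul_le_mul v1 (mul_le_mul v2 v1 (by positivity) (by positivity)) (by positivity)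
          (by positivity)
      have w4 : E * (E * E) = (a ^ 2 * b) * (5 * 10 ^ 10 * (G ^ 4 * E ^ 2)) := by
        nth_rewrite 1 [hE]
        ring
      have w5 : (2 * a * N1) * ((2 * b * N2) * (2 * a * N1)) = (a ^ 2 * b) * (8 * (N1 * (N2 * N1))) := by
        ring
      rw [w4, w5] at w3
      have w6 := le_of_mul_le_mul_left w3 (by linarith)
      have w7 : 0 ≤ G ^ 4 * E ^ 2 := by positivity
      have w8 : 2 * ((3004 * (E * G)) * ((3004 * (E * G)) * (301 * G ^ 2)))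
          = 5432457632 * (G ^ 4 * E ^ 2) := by ring
      rw [w8]
      linarith
    have h9 : ((2 * ((τ * (J + 1) + 1) * ((τ * (J + 1) + 1) * σ)) : ℕ) : ℝ)
        ≤ ((2 ^ n1 * (2 ^ n2 * 2 ^ n1) : ℕ) : ℝ) := by
      push_cast
      exact hreal
    exact_mod_cast h9

end

end Pool.Agent.H25.NB
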