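import Pool.Agent.H25.NB.Fun
import Pool.Agent.H23.NonSq
import Pool.Agent.H36.BF.LIO

/-!
# Values at half integers: linear independence of square roots and the Liouville inequality
-/

set_option autoImplicit false

namespace Pool.Agent.H25.NB

open Finset Polynomial

noncomputable section

/-- The products of square roots. -/
def th (a : Fin 3 → ℕ) (e : Fin 3 → Fin 2) : ℝ := ∏ i, Real.sqrt (a i) ^ (e i : ℕ)

lemma th_sq (a : Fin 3 → ℕ) (e : Fin 3 → Fin 2) :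
    th a e ^ 2 = ((∏ i, a i ^ (e i : ℕ) : ℕ) : ℝ) := by
  unfold th
  rw [← Finset.prod_pow]
  push_cast
  refine Finset.prod_congr rfl fun i _ => ?_
  rw [← pow_mul, mul_comm, pow_mul, Real.sq_sqrt (Nat.cast_nonneg _)]

lemma th_pos (a : Fin 3 → ℕ) (ha : ∀ i, a i ≠ 0) (e : Fin 3 → Fin 2) : 0 < th a e := by
  unfold th
  refine Finset.prod_pos fun i _ => pow_pos (Real.sqrt_pos.mpr ?_) _
  exact_mod_cast Nat.pos_of_ne_zero (ha i)

lemma sq_class (a : Fin 3 → ℕ) (ha : ∀ i, a i ≠ 0)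
    (hsq : ∀ e : Fin 3 → Fin 2, e ≠ 0 → ¬ IsSquare (∏ i, a i ^ (e i : ℕ)))
    (e e' : Fin 3 → Fin 2) (h : e ≠ e') :
    ¬ IsSquare (((∏ i, a i ^ (e i : ℕ) : ℕ) : ℚ) * ((∏ i, a i ^ (e' i : ℕ) : ℕ) : ℚ)) := by
  intro hs
  have hne : e + e' ≠ 0 := by
    intro h0
    apply h
    funext i
    have h1 := congrFun h0 i
    simp only [Pi.add_apply, Pi.zero_apply] at h1
    generalize e i = x at h1 ⊢
    generalize e' i = y at h1 ⊢
    revert x y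
    decide
  apply hsq (e + e') hne
  have hy : ((∏ i, a i ^ (((e i : ℕ) + (e' i : ℕ)) / 2) : ℕ) : ℚ) ≠ 0 := by
    have : (∏ i, a i ^ (((e i : ℕ) + (e' i : ℕ)) / 2) : ℕ) ≠ 0 :=
      Finset.prod_ne_zero_iff.mpr fun i _ => pow_ne_zero _ (ha i)
    exact_mod_cast this
  have h2 : ((∏ i, a i ^ (e i : ℕ) : ℕ) : ℚ) * ((∏ i, a i ^ (e' i : ℕ) : ℕ) : ℚ)
      = ((∏ i, a i ^ ((e + e') i : ℕ) : ℕ) : ℚ)
        * (((∏ i, a i ^ (((e i : ℕ) + (e' i : ℕ)) / 2) : ℕ) : ℚ)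
          * ((∏ i, a i ^ (((e i : ℕ) + (e' i : ℕ)) / 2) : ℕ) : ℚ)) := by
    have : (∏ i, a i ^ (e i : ℕ) : ℕ) * (∏ i, a i ^ (e' i : ℕ) : ℕ)
      = (∏ i, a i ^ ((e + e') i : ℕ) : ℕ)
        * ((∏ i, a i ^ (((e i : ℕ) + (e' i : ℕ)) / 2) : ℕ)
          * (∏ i, a i ^ (((e i : ℕ) + (e' i : ℕ)) / 2) : ℕ)) := by
      rw [← Finset.prod_mul_distrib, ← Finset.prod_mul_distrib, ← Finset.prod_mul_distrib]
      refine Finset.prod_congr rfl fun i _ => ?_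
      rw [← pow_add, ← pow_add, ← pow_add]
      congr 1
      have e1 : ((e + e') i : ℕ) = ((e i : ℕ) + (e' i : ℕ)) % 2 := by
        simp only [Pi.add_apply, Fin.val_add]
      omega
    exact_mod_cast this
  rw [h2] at hs
  have h3 : IsSquare ((∏ i, a i ^ ((e + e') i : ℕ) : ℕ) : ℚ) := by
    have h4 := hs.div (IsSquare.mul_self
      ((∏ i, a i ^ (((e i : ℕ) + (e' i : ℕ)) / 2) : ℕ) : ℚ))
    rwa [mul_div_cancel_right₀ _ (mul_ne_zero hy hy)] at h4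
  exact Rat.isSquare_natCast_iff.mp h3

lemma li (a : Fin 3 → ℕ) (ha : ∀ i, a i ≠ 0)
    (hsq : ∀ e : Fin 3 → Fin 2, e ≠ 0 → ¬ IsSquare (∏ i, a i ^ (e i : ℕ))) :
    LinearIndependent ℚ (th a) := by
  classical
  have hint : ∀ x ∈ Set.range (th a), IsIntegral ℚ x := by
    rintro _ ⟨e, rfl⟩
    refine ⟨X ^ 2 - C ((∏ i, a i ^ (e i : ℕ) : ℕ) : ℚ), monic_X_pow_sub_C _ two_ne_zero, ?_⟩
    have := th_sq a e
    simp only [eval₂_sub, eval₂_X_pow, eval₂_C, this]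
    simp
  have hfd : FiniteDimensional ℚ (IntermediateField.adjoin ℚ (Set.range (th a))) :=
    IntermediateField.finiteDimensional_adjoin hint
  let x : (Fin 3 → Fin 2) → IntermediateField.adjoin ℚ (Set.range (th a)) := fun e =>
    ⟨th a e, IntermediateField.subset_adjoin _ _ ⟨e, rfl⟩⟩
  have h1 : LinearIndependent ℚ x := by
    refine Pool.Agent.H23.linearIndependent_sqrt
      (fun e => ((∏ i, a i ^ (e i : ℕ) : ℕ) : ℚ)) ?_ ?_ x ?_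
    · intro e
      have : (∏ i, a i ^ (e i : ℕ) : ℕ) ≠ 0 :=
        Finset.prod_ne_zero_iff.mpr fun i _ => pow_ne_zero _ (ha i)
      exact_mod_cast this
    · intro e e' h
      exact sq_class a ha hsq e e' h
    · intro e
      apply Subtype.ext
      have := th_sq a e
      simp only [x]
      rw [IntermediateField.coe_pow, this]
      simp
  have h2 := h1.map' (IntermediateField.adjoin ℚ (Set.range (th a))).val.toLinearMap
    (LinearMap.ker_eq_bot.mpr (IntermediateField.adjoin ℚ (Set.range (th a))).val.injective)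
  exact h2

lemma li_int (a : Fin 3 → ℕ) (ha : ∀ i, a i ≠ 0)
    (hsq : ∀ e : Fin 3 → Fin 2, e ≠ 0 → ¬ IsSquare (∏ i, a i ^ (e i : ℕ)))
    (c : (Fin 3 → Fin 2) → ℤ) (h : ∑ e, (c e : ℝ) * th a e = 0) (e : Fin 3 → Fin 2) : c e = 0 := by
  have h1 := Fintype.linearIndependent_iff.mp (li a ha hsq) (fun e => (c e : ℚ)) (by
    rw [← h]
    refine Finset.sum_congr rfl fun e _ => ?_
    rw [Rat.smul_def]
    simp) e
  exact_mod_cast h1

open Pool.Agent.H72.BF in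
/-- Liouville. -/
lemma liou (a : Fin 3 → ℕ) (ha : ∀ i, 1 ≤ a i) (c : (Fin 3 → Fin 2) → ℤ) (Y : ℝ) (hY : 1 ≤ Y)
    (hc : ∀ e, |(c e : ℝ)| ≤ Y)
    (h : (8 * Y * ∏ i, (1 + (a i : ℝ)) ^ 2) ^ 8 * |∑ e, (c e : ℝ) * th a e| < 1) :
    ∑ e, (c e : ℝ) * th a e = 0 := by
  by_contra hne
  have h1 := Pool.Agent.H36.BF.lio (Fin 3) 2 (fun i => ((Real.sqrt (a i) : ℝ) : ℂ))
    (fun i => (a i : ℝ)) Y ((∑ e, (c e : ℝ) * th a e : ℝ) : ℂ) (by norm_num) hY ?_ ?_ ?_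
  · rw [Complex.norm_real, Real.norm_eq_abs, Fintype.card_fin] at h1
    norm_num at h1
    exact absurd h1 (not_le.mpr h)
  · intro i
    refine ⟨X ^ 2 - C ((a i : ℕ) : ℤ), monic_X_pow_sub_C _ two_ne_zero,
      natDegree_X_pow_sub_C, ?_, ?_⟩
    · intro j
      have h2 : (1 : ℝ) ≤ (a i : ℝ) := by exact_mod_cast ha i
      rw [coeff_sub, coeff_X_pow, coeff_C]
      split_ifs with h3 h4 h4
      · omega
      · simpa using h2
      · simp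
      · simp
    · simp only [map_sub, map_pow, aeval_X, aeval_C]
      have h3 : ((Real.sqrt (a i) : ℝ) : ℂ) ^ 2 = ((a i : ℝ) : ℂ) := by
        rw [← Complex.ofReal_pow, Real.sq_sqrt (Nat.cast_nonneg _)]
      rw [h3]
      simp
  · refine ⟨c, hc, ?_⟩
    push_cast
    refine Finset.sum_congr rfl fun e _ => ?_
    unfold th
    push_cast
    rfl
  · exact_mod_cast hne

/-- The bases. -/
def DT.av (D : DT) : Fin 3 → ℕ := ![D.α, D.β, D.γ]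

/-- The class modulo 2. -/
def cl (u : IX) : Fin 3 → Fin 2 := ![Fin.ofNat 2 u.1, Fin.ofNat 2 u.2.1, Fin.ofNat 2 u.2.2]

/-- The integral part of a half-integral power. -/
def DT.qv (D : DT) (s : ℕ) (u : IX) : ℕ :=
  D.α ^ (u.1 * s / 2) * D.β ^ (u.2.1 * s / 2) * D.γ ^ (u.2.2 * s / 2)

lemma sqrt_pow_odd {a x s : ℕ} (ha : a ≠ 0) (hs : Odd s) :
    Real.exp ((s : ℝ) / 2 * (x * Real.log a)) =
      (a : ℝ) ^ (x * s / 2) * Real.sqrt a ^ ((Fin.ofNat 2 x : Fin 2) : ℕ) := by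
  have ha' : (0 : ℝ) < a := by exact_mod_cast Nat.pos_of_ne_zero ha
  have h1 : Real.exp ((s : ℝ) / 2 * (x * Real.log a)) = Real.sqrt a ^ (x * s) := by
    have : (s : ℝ) / 2 * (x * Real.log a) = ((x * s : ℕ) : ℝ) * (Real.log a / 2) := by
      push_cast; ring
    rw [this, Real.exp_nat_mul, Real.exp_half, Real.exp_log ha']
  rw [h1]
  have h2 : x * s = 2 * (x * s / 2) + (x * s) % 2 := by omega
  have h3 : ((Fin.ofNat 2 x : Fin 2) : ℕ) = (x * s) % 2 := by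
    rw [Fin.val_ofNat, Nat.mul_mod, Nat.odd_iff.mp hs]
    omega
  rw [h3]
  conv_lhs => rw [h2]
  rw [pow_add, pow_mul, Real.sq_sqrt ha'.le]

variable (D : DT)

lemma DT.exp_half (hα : D.α ≠ 0) (hβ : D.β ≠ 0) (hγ : D.γ ≠ 0) {s : ℕ} (hs : Odd s) (u : IX) :
    Real.exp ((s : ℝ) / 2 * D.lw u) = (D.qv s u : ℝ) * th D.av (cl u) := by
  unfold DT.lw DT.qv th DT.av cl
  rw [Fin.prod_univ_three]
  simp only [Matrix.cons_val_zero, Matrix.cons_val_one, Matrix.cons_val]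
  have : (s : ℝ) / 2 * (u.1 * Real.log D.α + u.2.1 * Real.log D.β + u.2.2 * Real.log D.γ)
      = (s : ℝ) / 2 * (u.1 * Real.log D.α) + (s : ℝ) / 2 * (u.2.1 * Real.log D.β)
        + (s : ℝ) / 2 * (u.2.2 * Real.log D.γ) := by ring
  rw [this, Real.exp_add, Real.exp_add, sqrt_pow_odd hα hs, sqrt_pow_odd hβ hs,
    sqrt_pow_odd hγ hs]
  push_cast
  ring

/-- The value at a half integer splits into classes. -/
lemma DT.half_split (hα : D.α ≠ 0) (hβ : D.β ≠ 0) (hγ : D.γ ≠ 0) (B : Finset IX) (p : IX → ℤ)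
    (m1 m2 : ℕ) {s : ℕ} (hs : Odd s) :
    D.h B p m1 m2 ((s : ℝ) / 2) =
      ∑ e, ((∑ u ∈ B with cl u = e, D.co p m1 m2 u * (D.qv s u : ℤ) : ℤ) : ℝ) * th D.av e := by
  unfold DT.h
  rw [← Finset.sum_fiberwise B cl]
  refine Finset.sum_congr rfl fun e _ => ?_
  push_cast
  rw [Finset.sum_mul]
  refine Finset.sum_congr rfl fun u hu => ?_
  rw [Finset.mem_filter] at hu
  rw [D.exp_half hα hβ hγ hs, hu.2]
  ring

lemma DT.qv_le (hα : D.α ≠ 0) (hβ : D.β ≠ 0) (hγ : D.γ ≠ 0) (s : ℕ) (u : IX) :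
    (D.qv s u : ℝ) ≤ Real.exp (s * D.lw u) := by
  have key : ∀ a x : ℕ, a ≠ 0 → (a : ℝ) ^ (x * s / 2) ≤ Real.exp (s * (x * Real.log a)) := by
    intro a x ha
    have ha' : (0 : ℝ) < a := by exact_mod_cast Nat.pos_of_ne_zero ha
    have h1 : Real.exp (s * (x * Real.log a)) = (a : ℝ) ^ (x * s) := by
      have : (s : ℝ) * (x * Real.log a) = ((x * s : ℕ) : ℝ) * Real.log a := by push_cast; ring
      rw [this, Real.exp_nat_mul, Real.exp_log ha']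
    rw [h1]
    refine pow_le_pow_right₀ ?_ (Nat.div_le_self _ _)
    exact_mod_cast Nat.one_le_iff_ne_zero.mpr ha
  unfold DT.qv DT.lw
  push_cast
  have : (s : ℝ) * (u.1 * Real.log D.α + u.2.1 * Real.log D.β + u.2.2 * Real.log D.γ)
      = (s : ℝ) * (u.1 * Real.log D.α) + (s : ℝ) * (u.2.1 * Real.log D.β)
        + (s : ℝ) * (u.2.2 * Real.log D.γ) := by ring
  rw [this, Real.exp_add, Real.exp_add]
  have h1 := key D.α u.1 hα
  have h2 := key D.β u.2.1 hβ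
  have h3 := key D.γ u.2.2 hγ
  gcongr

/-- The integral coefficients of the classes. -/
def DT.cc (D : DT) (B : Finset IX) (p : IX → ℤ) (m1 m2 s : ℕ) (e : Fin 3 → Fin 2) : ℤ :=
  ∑ u ∈ B with cl u = e, D.co p m1 m2 u * (D.qv s u : ℤ)

lemma DT.half_split' (hα : D.α ≠ 0) (hβ : D.β ≠ 0) (hγ : D.γ ≠ 0) (B : Finset IX) (p : IX → ℤ)
    (m1 m2 : ℕ) {s : ℕ} (hs : Odd s) :
    D.h B p m1 m2 ((s : ℝ) / 2) = ∑ e, (D.cc B p m1 m2 s e : ℝ) * th D.av e :=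
  D.half_split hα hβ hγ B p m1 m2 hs

lemma DT.cc_bound (hα : D.α ≠ 0) (hβ : D.β ≠ 0) (hγ : D.γ ≠ 0)
    (B : Finset IX) (p : IX → ℤ) (m1 m2 : ℕ) (s : ℕ) {Q E : ℝ}
    (hQ : ∀ u ∈ B, |(D.co p m1 m2 u : ℝ)| ≤ Q) (hE : ∀ u ∈ B, D.lw u ≤ 3 * E)
    (hQ0 : 0 ≤ Q) (e : Fin 3 → Fin 2) :
    |(D.cc B p m1 m2 s e : ℝ)| ≤ B.card * Q * Real.exp (3 * E * s) := by
  unfold DT.cc
  push_cast
  refine (Finset.abs_sum_le_sum_abs _ _).trans ?_
  have h3 : ∀ u ∈ B.filter (fun u => cl u = e),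
      |(D.co p m1 m2 u : ℝ) * (D.qv s u : ℝ)| ≤ Q * Real.exp (3 * E * s) := by
    intro u hu
    rw [Finset.mem_filter] at hu
    rw [abs_mul, Nat.abs_cast]
    refine mul_le_mul (hQ u hu.1) ((D.qv_le hα hβ hγ s u).trans (Real.exp_le_exp.mpr ?_))
      (Nat.cast_nonneg _) hQ0
    have h4 := hE u hu.1
    have hs0 : (0 : ℝ) ≤ s := Nat.cast_nonneg _
    calc (s : ℝ) * D.lw u ≤ s * (3 * E) := mul_le_mul_of_nonneg_left h4 hs0
      _ = 3 * E * s := by ring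
  refine (Finset.sum_le_sum h3).trans ?_
  rw [Finset.sum_const, nsmul_eq_mul, mul_assoc (B.card : ℝ)]
  refine mul_le_mul_of_nonneg_right ?_ (mul_nonneg hQ0 (Real.exp_pos _).le)
  exact_mod_cast Finset.card_filter_le _ _

lemma DT.cc_class (hα : D.α ≠ 0) (hβ : D.β ≠ 0) (hγ : D.γ ≠ 0)
    (B : Finset IX) (p : IX → ℤ) (m1 m2 : ℕ) {s : ℕ} (hs : Odd s) (e : Fin 3 → Fin 2) :
    ∑ u ∈ B with cl u = e, (D.co p m1 m2 u : ℝ) * Real.exp ((s : ℝ) / 2 * D.lw u)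
      = (D.cc B p m1 m2 s e : ℝ) * th D.av e := by
  unfold DT.cc
  push_cast
  rw [Finset.sum_mul]
  refine Finset.sum_congr rfl fun u hu => ?_
  rw [Finset.mem_filter] at hu
  rw [D.exp_half hα hβ hγ hs, hu.2]
  ring

lemma DT.av_ne (hα : D.α ≠ 0) (hβ : D.β ≠ 0) (hγ : D.γ ≠ 0) (i : Fin 3) : D.av i ≠ 0 := by
  unfold DT.av
  match i with
  | 0 => exact hα
  | 1 => exact hβ
  | 2 => exact hγ

lemma DT.av_prod : ∏ i, (1 + (D.av i : ℝ)) ^ 2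
    = (1 + (D.α : ℝ)) ^ 2 * (1 + (D.β : ℝ)) ^ 2 * (1 + (D.γ : ℝ)) ^ 2 := by
  rw [Fin.prod_univ_three]
  rfl

/-- A tiny value at a half integer forces all the classes to vanish. -/
lemma DT.half_zero (hα : D.α ≠ 0) (hβ : D.β ≠ 0) (hγ : D.γ ≠ 0)
    (hsq : ∀ e : Fin 3 → Fin 2, e ≠ 0 → ¬ IsSquare (∏ i, D.av i ^ (e i : ℕ)))
    (B : Finset IX) (p : IX → ℤ) (m1 m2 : ℕ) {s : ℕ} (hs : Odd s) {Q E Y : ℝ}
    (hQ : ∀ u ∈ B, |(D.co p m1 m2 u : ℝ)| ≤ Q) (hE : ∀ u ∈ B, D.lw u ≤ 3 * E)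
    (hY1 : 1 ≤ Y) (hY : B.card * Q * Real.exp (3 * E * s) ≤ Y) (hQ0 : 0 ≤ Q)
    (hsm : (8 * Y * ((1 + (D.α : ℝ)) ^ 2 * (1 + (D.β : ℝ)) ^ 2 * (1 + (D.γ : ℝ)) ^ 2)) ^ 8
      * |D.h B p m1 m2 ((s : ℝ) / 2)| < 1) (e : Fin 3 → Fin 2) :
    ∑ u ∈ B with cl u = e, (D.co p m1 m2 u : ℝ) * Real.exp ((s : ℝ) / 2 * D.lw u) = 0 := by
  have hav := D.av_ne hα hβ hγ
  have h1 := D.half_split' hα hβ hγ B p m1 m2 hs
  have h2 : ∑ e, (D.cc B p m1 m2 s e : ℝ) * th D.av e = 0 := by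
    refine liou D.av (fun i => Nat.one_le_iff_ne_zero.mpr (hav i)) (D.cc B p m1 m2 s) Y hY1
      (fun e => (D.cc_bound hα hβ hγ B p m1 m2 s hQ hE hQ0 e).trans hY) ?_
    rw [← h1, D.av_prod]
    exact hsm
  have h5 := li_int D.av hav hsq (D.cc B p m1 m2 s) h2 e
  rw [D.cc_class hα hβ hγ B p m1 m2 hs e, h5, Int.cast_zero, zero_mul]

end

end Pool.Agent.H25.NB
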