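import Pool.Agent.H25.NB.Ext

/-!
# The descent step
-/

set_option autoImplicit false

namespace Pool.Agent.H25.NB

open Finset

noncomputable section

/-- The boxes. -/
def bx (n1 n2 n3 : ℕ) : Finset IX := range (2 ^ n1) ×ˢ range (2 ^ n2) ×ˢ range (2 ^ n3)

lemma mem_bx {n1 n2 n3 : ℕ} {u : IX} :
    u ∈ bx n1 n2 n3 ↔ u.1 < 2 ^ n1 ∧ u.2.1 < 2 ^ n2 ∧ u.2.2 < 2 ^ n3 := by
  unfold bx
  simp [Finset.mem_product]

lemma card_bx (n1 n2 n3 : ℕ) : (bx n1 n2 n3).card = 2 ^ n1 * (2 ^ n2 * 2 ^ n3) := by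
  unfold bx
  rw [Finset.card_product, Finset.card_product]
  simp

/-- Doubling in a class. -/
def dbl (e : Fin 3 → Fin 2) (u : IX) : IX :=
  ((e 0 : ℕ) + 2 * u.1, (e 1 : ℕ) + 2 * u.2.1, (e 2 : ℕ) + 2 * u.2.2)

lemma cl_iff (u : IX) (e : Fin 3 → Fin 2) :
    cl u = e ↔ u.1 % 2 = (e 0 : ℕ) ∧ u.2.1 % 2 = (e 1 : ℕ) ∧ u.2.2 % 2 = (e 2 : ℕ) := by
  unfold cl
  constructor
  · intro h
    have h0 := congrFun h 0
    have h1 := congrFun h 1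
    have h2 := congrFun h 2
    simp only [Matrix.cons_val_zero, Matrix.cons_val_one, Matrix.cons_val] at h0 h1 h2
    rw [← h0, ← h1, ← h2]
    simp [Fin.val_ofNat]
  · rintro ⟨h0, h1, h2⟩
    funext i
    apply Fin.ext
    match i with
    | 0 => simpa [Fin.val_ofNat] using h0
    | 1 => simpa [Fin.val_ofNat] using h1
    | 2 => simpa [Fin.val_ofNat] using h2

lemma half_lt {x n : ℕ} (h : x < 2 ^ n) : x / 2 < 2 ^ (n - 1) := by
  rcases n with _ | n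
  · simp at h
    simp [h]
  · rw [Nat.add_sub_cancel]
    rw [pow_succ] at h
    omega

lemma dbl_lt {x n e x0 : ℕ} (h : x < 2 ^ (n - 1)) (h0 : x0 < 2 ^ n) (he : x0 % 2 = e) :
    e + 2 * x < 2 ^ n := by
  rcases n with _ | n
  · simp at h h0
    subst h0
    omega
  · rw [Nat.add_sub_cancel] at h
    rw [pow_succ]
    omega

lemma class_sum {n1 n2 n3 : ℕ} (e : Fin 3 → Fin 2) {u0 : IX} (hu0 : u0 ∈ bx n1 n2 n3)
    (he : cl u0 = e) (F : IX → ℝ) :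
    ∑ u ∈ bx n1 n2 n3 with cl u = e, F u = ∑ v ∈ bx (n1 - 1) (n2 - 1) (n3 - 1), F (dbl e v) := by
  rw [mem_bx] at hu0
  rw [cl_iff] at he
  refine Finset.sum_nbij' (fun u => (u.1 / 2, u.2.1 / 2, u.2.2 / 2)) (dbl e) ?_ ?_ ?_ ?_ ?_
  · intro u hu
    rw [Finset.mem_filter, mem_bx] at hu
    rw [mem_bx]
    exact ⟨half_lt hu.1.1, half_lt hu.1.2.1, half_lt hu.1.2.2⟩
  · intro v hv
    rw [mem_bx] at hv
    rw [Finset.mem_filter, mem_bx, cl_iff]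
    have e0 := (e 0).2
    have e1 := (e 1).2
    have e2 := (e 2).2
    refine ⟨⟨dbl_lt hv.1 hu0.1 he.1, dbl_lt hv.2.1 hu0.2.1 he.2.1,
      dbl_lt hv.2.2 hu0.2.2 he.2.2⟩, ?_, ?_, ?_⟩
    · simp only [dbl]; omega
    · simp only [dbl]; omega
    · simp only [dbl]; omega
  · intro u hu
    rw [Finset.mem_filter, cl_iff] at hu
    obtain ⟨_, h0, h1, h2⟩ := hu
    simp only [dbl]
    refine Prod.ext ?_ (Prod.ext ?_ ?_)
    · simp only; omega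
    · simp only; omega
    · simp only; omega
  · intro v hv
    have e0 := (e 0).2
    have e1 := (e 1).2
    have e2 := (e 2).2
    simp only [dbl]
    refine Prod.ext ?_ (Prod.ext ?_ ?_)
    · simp only; omega
    · simp only; omega
    · simp only; omega
  · intro u hu
    rw [Finset.mem_filter, cl_iff] at hu
    obtain ⟨_, h0, h1, h2⟩ := hu
    congr 1
    simp only [dbl]
    refine Prod.ext ?_ (Prod.ext ?_ ?_)
    · simp only; omega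
    · simp only; omega
    · simp only; omega

variable (D : DT)

lemma DT.A1_dbl (e : Fin 3 → Fin 2) (v : IX) :
    D.A1 (dbl e v) = D.A1 ((e 0 : ℕ), (e 1 : ℕ), (e 2 : ℕ)) + 2 * D.A1 v := by
  unfold DT.A1 dbl
  push_cast
  ring

lemma DT.A2_dbl (e : Fin 3 → Fin 2) (v : IX) :
    D.A2 (dbl e v) = D.A2 ((e 0 : ℕ), (e 1 : ℕ), (e 2 : ℕ)) + 2 * D.A2 v := by
  unfold DT.A2 dbl
  push_cast
  ring

lemma DT.lw_dbl (e : Fin 3 → Fin 2) (v : IX) :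
    D.lw (dbl e v) = D.lw ((e 0 : ℕ), (e 1 : ℕ), (e 2 : ℕ)) + 2 * D.lw v := by
  unfold DT.lw dbl
  push_cast
  ring

/-- Binomial inversion. -/
lemma binom_inv {ι : Type*} (s : Finset ι) (c x y : ι → ℝ) (a b : ℝ) {T : ℕ}
    (h : ∀ m1 m2 : ℕ, m1 + m2 ≤ T → ∑ i ∈ s, c i * ((a + 2 * x i) ^ m1 * (b + 2 * y i) ^ m2) = 0)
    {m1 m2 : ℕ} (hm : m1 + m2 ≤ T) : ∑ i ∈ s, c i * (x i ^ m1 * y i ^ m2) = 0 := by
  have h1 : ∑ i ∈ s, c i * ((2 * x i) ^ m1 * (2 * y i) ^ m2) = 0 := by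
    have h2 : ∀ i ∈ s, c i * ((2 * x i) ^ m1 * (2 * y i) ^ m2)
        = ∑ j1 ∈ range (m1 + 1), ∑ j2 ∈ range (m2 + 1),
          ((-a) ^ (m1 - j1) * (m1.choose j1 : ℝ) * ((-b) ^ (m2 - j2) * (m2.choose j2 : ℝ)))
            * (c i * ((a + 2 * x i) ^ j1 * (b + 2 * y i) ^ j2)) := by
      intro i _
      have k1 : 2 * x i = (a + 2 * x i) + -a := by ring
      have k2 : 2 * y i = (b + 2 * y i) + -b := by ring
      conv_lhs => rw [k1, k2]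
      rw [add_pow (a + 2 * x i) (-a) m1, add_pow (b + 2 * y i) (-b) m2, Finset.sum_mul_sum,
        Finset.mul_sum]
      refine Finset.sum_congr rfl fun j1 _ => ?_
      rw [Finset.mul_sum]
      refine Finset.sum_congr rfl fun j2 _ => ?_
      ring
    rw [Finset.sum_congr rfl h2, Finset.sum_comm]
    refine Finset.sum_eq_zero fun j1 hj1 => ?_
    rw [Finset.sum_comm]
    refine Finset.sum_eq_zero fun j2 hj2 => ?_
    rw [← Finset.mul_sum, h j1 j2 (by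
      rw [Finset.mem_range] at hj1 hj2
      omega), mul_zero]
  have h3 : ∑ i ∈ s, c i * ((2 * x i) ^ m1 * (2 * y i) ^ m2)
      = (2 : ℝ) ^ m1 * 2 ^ m2 * ∑ i ∈ s, c i * (x i ^ m1 * y i ^ m2) := by
    rw [Finset.mul_sum]
    refine Finset.sum_congr rfl fun i _ => ?_
    rw [mul_pow, mul_pow]
    ring
  rw [h3] at h1
  rcases mul_eq_zero.mp h1 with h4 | h4
  · exact absurd h4 (by positivity)
  · exact h4

/-- From the classes at half integers to the integers. -/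
lemma DT.descend {n1 n2 n3 : ℕ} (p : IX → ℤ) {T s : ℕ} {u0 : IX} (hu0 : u0 ∈ bx n1 n2 n3)
    (h : ∀ m1 m2 : ℕ, m1 + m2 ≤ T → ∑ u ∈ bx n1 n2 n3 with cl u = cl u0,
      (D.co p m1 m2 u : ℝ) * Real.exp ((s : ℝ) / 2 * D.lw u) = 0)
    {m1 m2 : ℕ} (hm : m1 + m2 ≤ T) :
    D.h (bx (n1 - 1) (n2 - 1) (n3 - 1)) (fun v => p (dbl (cl u0) v)) m1 m2 (s : ℝ) = 0 := by
  set e := cl u0 with he
  have h1 : ∀ m1 m2 : ℕ, m1 + m2 ≤ T →
      ∑ v ∈ bx (n1 - 1) (n2 - 1) (n3 - 1), ((p (dbl e v) : ℝ) * Real.exp (s * D.lw v))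
        * (((D.A1 ((e 0 : ℕ), (e 1 : ℕ), (e 2 : ℕ)) : ℝ) + 2 * (D.A1 v : ℝ)) ^ m1
          * ((D.A2 ((e 0 : ℕ), (e 1 : ℕ), (e 2 : ℕ)) : ℝ) + 2 * (D.A2 v : ℝ)) ^ m2) = 0 := by
    intro m1 m2 hm
    have h2 := h m1 m2 hm
    rw [class_sum e hu0 he.symm] at h2
    have h3 : ∑ v ∈ bx (n1 - 1) (n2 - 1) (n3 - 1), (D.co p m1 m2 (dbl e v) : ℝ)
          * Real.exp ((s : ℝ) / 2 * D.lw (dbl e v))
        = Real.exp ((s : ℝ) / 2 * D.lw ((e 0 : ℕ), (e 1 : ℕ), (e 2 : ℕ)))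
          * ∑ v ∈ bx (n1 - 1) (n2 - 1) (n3 - 1), ((p (dbl e v) : ℝ) * Real.exp (s * D.lw v))
        * (((D.A1 ((e 0 : ℕ), (e 1 : ℕ), (e 2 : ℕ)) : ℝ) + 2 * (D.A1 v : ℝ)) ^ m1
          * ((D.A2 ((e 0 : ℕ), (e 1 : ℕ), (e 2 : ℕ)) : ℝ) + 2 * (D.A2 v : ℝ)) ^ m2) := by
      rw [Finset.mul_sum]
      refine Finset.sum_congr rfl fun v _ => ?_
      rw [D.lw_dbl, mul_add, Real.exp_add]
      have h4 : (s : ℝ) / 2 * (2 * D.lw v) = s * D.lw v := by ring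
      rw [h4]
      unfold DT.co
      rw [D.A1_dbl, D.A2_dbl]
      push_cast
      ring
    rw [h3] at h2
    rcases mul_eq_zero.mp h2 with h4 | h4
    · exact absurd h4 (Real.exp_pos _).ne'
    · exact h4
  have h5 := binom_inv (bx (n1 - 1) (n2 - 1) (n3 - 1))
    (fun v => (p (dbl e v) : ℝ) * Real.exp (s * D.lw v)) (fun v => (D.A1 v : ℝ))
    (fun v => (D.A2 v : ℝ)) _ _ h1 hm
  unfold DT.h
  rw [← h5]
  refine Finset.sum_congr rfl fun v _ => ?_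
  unfold DT.co
  push_cast
  ring

end

end Pool.Agent.H25.NB
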