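import Pool.Agent.H25.NB.Step
import Pool.Agent.H54.BF.SIE

/-!
# The bound for a linear form in three logarithms of integers
-/

set_option autoImplicit false

namespace Pool.Agent.H25.NB

open Finset

noncomputable section

/-- Sizes of the boxes. -/
structure Bd (D : DT) (n1 n2 n3 : ℕ) (E G : ℝ) : Prop where
  h1 : (2 : ℝ) ^ n1 * Real.log D.α ≤ E
  h2 : (2 : ℝ) ^ n2 * Real.log D.β ≤ E
  h3 : (2 : ℝ) ^ n3 * Real.log D.γ ≤ E
  g1 : (D.m : ℝ) * 2 ^ n1 + D.d * 2 ^ n3 ≤ Real.exp G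
  g2 : (D.m : ℝ) * 2 ^ n2 + D.k * 2 ^ n3 ≤ Real.exp G
  g3 : (2 : ℝ) ^ n1 * (2 ^ n2 * 2 ^ n3) ≤ Real.exp (3 * G)
  g4 : (2 : ℝ) ^ n3 ≤ Real.exp G

lemma two_pow_pred_le (n : ℕ) : (2 : ℝ) ^ (n - 1) ≤ 2 ^ n :=
  pow_le_pow_right₀ (by norm_num) (Nat.sub_le _ _)

lemma Bd.pred {D : DT} {n1 n2 n3 : ℕ} {E G : ℝ} (H : Bd D n1 n2 n3 E G) :
    Bd D (n1 - 1) (n2 - 1) (n3 - 1) E G := by
  have k1 := two_pow_pred_le n1
  have k2 := two_pow_pred_le n2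
  have k3 := two_pow_pred_le n3
  have l1 := Real.log_natCast_nonneg D.α
  have l2 := Real.log_natCast_nonneg D.β
  have l3 := Real.log_natCast_nonneg D.γ
  refine ⟨le_trans ?_ H.h1, le_trans ?_ H.h2, le_trans ?_ H.h3, le_trans ?_ H.g1,
    le_trans ?_ H.g2, le_trans ?_ H.g3, le_trans ?_ H.g4⟩
  · gcongr
  · gcongr
  · gcongr
  · gcongr
  · gcongr
  · gcongr
  · exact k3

variable {D : DT}

lemma Bd.lw {n1 n2 n3 : ℕ} {E G : ℝ} (H : Bd D n1 n2 n3 E G) {u : IX}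
    (hu : u ∈ bx n1 n2 n3) : D.lw u ≤ 3 * E := by
  rw [mem_bx] at hu
  have l1 := Real.log_natCast_nonneg D.α
  have l2 := Real.log_natCast_nonneg D.β
  have l3 := Real.log_natCast_nonneg D.γ
  have u1 : (u.1 : ℝ) ≤ 2 ^ n1 := by exact_mod_cast hu.1.le
  have u2 : (u.2.1 : ℝ) ≤ 2 ^ n2 := by exact_mod_cast hu.2.1.le
  have u3 : (u.2.2 : ℝ) ≤ 2 ^ n3 := by exact_mod_cast hu.2.2.le
  have e1 := mul_le_mul_of_nonneg_right u1 l1
  have e2 := mul_le_mul_of_nonneg_right u2 l2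
  have e3 := mul_le_mul_of_nonneg_right u3 l3
  unfold DT.lw
  linarith [H.h1, H.h2, H.h3]

lemma Bd.u3 {n1 n2 n3 : ℕ} {E G : ℝ} (H : Bd D n1 n2 n3 E G) {u : IX}
    (hu : u ∈ bx n1 n2 n3) : (u.2.2 : ℝ) ≤ Real.exp G := by
  rw [mem_bx] at hu
  have u3 : (u.2.2 : ℝ) ≤ 2 ^ n3 := by exact_mod_cast hu.2.2.le
  exact u3.trans H.g4

lemma Bd.A1 {n1 n2 n3 : ℕ} {E G : ℝ} (H : Bd D n1 n2 n3 E G) {u : IX}
    (hu : u ∈ bx n1 n2 n3) : |(D.A1 u : ℝ)| ≤ Real.exp G := by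
  rw [mem_bx] at hu
  have u1 : (u.1 : ℝ) ≤ 2 ^ n1 := by exact_mod_cast hu.1.le
  have u3 : (u.2.2 : ℝ) ≤ 2 ^ n3 := by exact_mod_cast hu.2.2.le
  refine le_trans ?_ H.g1
  unfold DT.A1
  push_cast
  rw [abs_of_nonneg (by positivity)]
  gcongr

lemma Bd.A2 {n1 n2 n3 : ℕ} {E G : ℝ} (H : Bd D n1 n2 n3 E G) {u : IX}
    (hu : u ∈ bx n1 n2 n3) : |(D.A2 u : ℝ)| ≤ Real.exp G := by
  rw [mem_bx] at hu
  have u1 : (u.2.1 : ℝ) ≤ 2 ^ n2 := by exact_mod_cast hu.2.1.le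
  have u3 : (u.2.2 : ℝ) ≤ 2 ^ n3 := by exact_mod_cast hu.2.2.le
  refine le_trans ?_ H.g2
  unfold DT.A2
  push_cast
  refine (abs_sub _ _).trans ?_
  rw [abs_of_nonneg (by positivity), abs_of_nonneg (by positivity)]
  gcongr

/-- Bound for the power products. -/
lemma Bd.AA {n1 n2 n3 : ℕ} {E G : ℝ} (hG : 0 ≤ G) (H : Bd D n1 n2 n3 E G) {u : IX}
    (hu : u ∈ bx n1 n2 n3) {m1 m2 T : ℕ} (h : m1 + m2 ≤ T) :
    |(D.A1 u : ℝ) ^ m1 * (D.A2 u : ℝ) ^ m2| ≤ Real.exp (G * T) := by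
  rw [abs_mul, abs_pow, abs_pow]
  calc |(D.A1 u : ℝ)| ^ m1 * |(D.A2 u : ℝ)| ^ m2
      ≤ Real.exp G ^ m1 * Real.exp G ^ m2 :=
        mul_le_mul (pow_le_pow_left₀ (abs_nonneg _) (H.A1 hu) _)
          (pow_le_pow_left₀ (abs_nonneg _) (H.A2 hu) _) (by positivity) (by positivity)
    _ = Real.exp G ^ (m1 + m2) := by rw [pow_add]
    _ ≤ Real.exp G ^ T := pow_le_pow_right₀ (Real.one_le_exp hG) h
    _ = Real.exp (G * T) := by rw [← Real.exp_nat_mul]; ring_nf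

/-- A stage of the construction. -/
def Stage (D : DT) (n1 n2 n3 T σ : ℕ) (P : ℝ) (p : IX → ℤ) : Prop :=
  (∃ u ∈ bx n1 n2 n3, p u ≠ 0) ∧ (∀ u ∈ bx n1 n2 n3, |(p u : ℝ)| ≤ P) ∧
    ∀ m1 m2 : ℕ, m1 + m2 ≤ T → ∀ j < σ,
      D.h (bx n1 n2 n3) p m1 m2 ((2 * j + 1 : ℕ) : ℝ) = 0

lemma stage_step {τ σ : ℕ} {E G η : ℝ} (H : Sz D τ σ E G η)
    (hsq : ∀ e : Fin 3 → Fin 2, e ≠ 0 → ¬ IsSquare (∏ i, D.av i ^ (e i : ℕ)))
    {T0 T n1 n2 n3 : ℕ} (HB : Bd D n1 n2 n3 E G) {P : ℝ} (hP : 0 ≤ P) (hT : T ≤ T0)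
    (hX : Real.exp (3 * G) * (P * Real.exp (G * T0)) ≤ Real.exp ((τ * σ : ℝ) / 25))
    (p : IX → ℤ) (hs : Stage D n1 n2 n3 T σ P p) (hτT : τ ≤ T) :
    ∃ p' : IX → ℤ, Stage D (n1 - 1) (n2 - 1) (n3 - 1) (T - τ) σ P p' := by
  obtain ⟨⟨u0, hu0, hpu0⟩, hpP, hz⟩ := hs
  have hG0 : 0 ≤ G := by linarith [H.hG]
  have hcard : (((bx n1 n2 n3).card : ℕ) : ℝ) ≤ Real.exp (3 * G) := by
    rw [card_bx]
    push_cast
    exact HB.g3
  have hQ : ∀ m1 m2 : ℕ, m1 + m2 ≤ T → ∀ u ∈ bx n1 n2 n3,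
      |(D.co p m1 m2 u : ℝ)| ≤ P * Real.exp (G * T0) := by
    intro m1 m2 hm u hu
    unfold DT.co
    push_cast
    rw [abs_mul]
    exact mul_le_mul (hpP u hu) (HB.AA hG0 hu (hm.trans hT)) (abs_nonneg _) hP
  have key : ∀ m1 m2 : ℕ, m1 + m2 ≤ T - τ → ∀ j < σ, ∀ e : Fin 3 → Fin 2,
      ∑ u ∈ bx n1 n2 n3 with cl u = e,
      (D.co p m1 m2 u : ℝ) * Real.exp (((2 * j + 1 : ℕ) : ℝ) / 2 * D.lw u) = 0 := by
    intro m1 m2 hm j hj e
    exact extra H hsq (bx n1 n2 n3) p (T := T) (Q := P * Real.exp (G * T0))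
      (fun u hu => HB.lw hu) (fun u hu => HB.u3 hu) hQ (by positivity)
      ((mul_le_mul_of_nonneg_right hcard (by positivity)).trans hX) hz (by omega) hj e
  refine ⟨fun v => p (dbl (cl u0) v), ?_, ?_, ?_⟩
  · have hu0' := mem_bx.mp hu0
    refine ⟨(u0.1 / 2, u0.2.1 / 2, u0.2.2 / 2), ?_, ?_⟩
    · rw [mem_bx]
      exact ⟨half_lt hu0'.1, half_lt hu0'.2.1, half_lt hu0'.2.2⟩
    · have h0 := (cl_iff u0 (cl u0)).mp rfl
      have : dbl (cl u0) (u0.1 / 2, u0.2.1 / 2, u0.2.2 / 2) = u0 := by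
        obtain ⟨h0, h1, h2⟩ := h0
        simp only [dbl]
        refine Prod.ext ?_ (Prod.ext ?_ ?_)
        · simp only; omega
        · simp only; omega
        · simp only; omega
      beta_reduce
      rw [this]
      exact hpu0
  · intro v hv
    refine hpP _ ?_
    have hu0' := mem_bx.mp hu0
    have h0 := (cl_iff u0 (cl u0)).mp rfl
    rw [mem_bx] at hv ⊢
    exact ⟨dbl_lt hv.1 hu0'.1 h0.1, dbl_lt hv.2.1 hu0'.2.1 h0.2.1, dbl_lt hv.2.2 hu0'.2.2 h0.2.2⟩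
  · intro m1 m2 hm j hj
    exact D.descend p hu0 (fun i1 i2 hi => key i1 i2 hi j hj (cl u0)) hm

lemma stage_last {σ T : ℕ} {P : ℝ} (hσ : 0 < σ) (p : IX → ℤ) (h : Stage D 0 0 0 T σ P p) :
    False := by
  obtain ⟨⟨u, hu, hp⟩, _, hz⟩ := h
  have h1 := hz 0 0 (by omega) 0 hσ
  have hb : bx 0 0 0 = {(0, 0, 0)} := by
    unfold bx
    decide
  rw [hb, Finset.mem_singleton] at hu
  subst hu
  unfold DT.h at h1
  rw [hb, Finset.sum_singleton] at h1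
  rcases mul_eq_zero.mp h1 with h2 | h2
  · unfold DT.co at h2
    apply hp
    have h3 : ((p (0, 0, 0) : ℤ) : ℝ) = 0 := by simpa using h2
    exact_mod_cast h3
  · exact absurd h2 (Real.exp_pos _).ne'

/-- Siegel's lemma gives the first stage. -/
lemma stage_zero {τ σ : ℕ} {E G η : ℝ} (H : Sz D τ σ E G η) {T0 n1 n2 n3 : ℕ}
    (HB : Bd D n1 n2 n3 E G) (hV : 2 * ((T0 + 1) * ((T0 + 1) * σ)) ≤ 2 ^ n1 * (2 ^ n2 * 2 ^ n3)) :
    ∃ p : IX → ℤ, Stage D n1 n2 n3 T0 σ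
      (Real.exp (3 * G) * Real.exp (2 * (G * T0) + 6 * (E * σ))) p := by
  classical
  have hG0 : 0 ≤ G := by linarith [H.hG]
  have hE0 : 0 ≤ E := by linarith [H.hE]
  have hσ0 : (0 : ℝ) < σ := by linarith [H.hσ, H.hG]
  have hσ1 : 0 < σ := by exact_mod_cast hσ0
  have hα0 : D.α ≠ 0 := by have := H.hα; omega
  have hβ0 : D.β ≠ 0 := by have := H.hβ; omega
  have hγ0 : D.γ ≠ 0 := by have := H.hγ; omega
  let U := {u // u ∈ bx n1 n2 n3}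
  let V := Fin (T0 + 1) × Fin (T0 + 1) × Fin σ
  let a : V → U → ℤ := fun v u =>
    D.A1 u.1 ^ (v.1 : ℕ) * D.A2 u.1 ^ (v.2.1 : ℕ) * (D.w u.1 : ℤ) ^ (2 * (v.2.2 : ℕ) + 1)
  have hwexp : ∀ (u : IX) (n : ℕ), ((D.w u : ℕ) : ℝ) ^ n = Real.exp (n * D.lw u) := by
    intro u n
    have hw : 0 < D.w u := by
      unfold DT.w
      have := Nat.pos_of_ne_zero hα0
      have := Nat.pos_of_ne_zero hβ0
      have := Nat.pos_of_ne_zero hγ0
      positivity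
    have hw' : (0 : ℝ) < (D.w u : ℕ) := by exact_mod_cast hw
    rw [D.lw_eq hα0 hβ0 hγ0, Real.exp_nat_mul, Real.exp_log hw']
  have hcardU : Fintype.card U = 2 ^ n1 * (2 ^ n2 * 2 ^ n3) := by
    simp only [U, Fintype.card_coe]
    exact card_bx n1 n2 n3
  have hcardV : Fintype.card V = (T0 + 1) * ((T0 + 1) * σ) := by
    simp only [V, Fintype.card_prod, Fintype.card_fin]
  have hb1 : ∀ v u, |(a v u : ℝ)| ≤ Real.exp (2 * (G * T0) + 6 * (E * σ)) := by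
    intro v u
    simp only [a]
    push_cast
    rw [hwexp, abs_mul, abs_of_pos (Real.exp_pos _)]
    have h1 : |(D.A1 u.1 : ℝ) ^ (v.1 : ℕ) * (D.A2 u.1 : ℝ) ^ (v.2.1 : ℕ)|
        ≤ Real.exp (G * (2 * T0 : ℕ)) := by
      have e1 := v.1.2
      have e2 := v.2.1.2
      exact HB.AA hG0 u.2 (by omega)
    have h2 : Real.exp (((2 * (v.2.2 : ℕ) + 1 : ℕ) : ℝ) * D.lw u.1) ≤ Real.exp (6 * (E * σ)) := by
      refine Real.exp_le_exp.mpr ?_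
      have e3 := v.2.2.2
      have e4 : ((2 * (v.2.2 : ℕ) + 1 : ℕ) : ℝ) ≤ 2 * σ := by
        have : 2 * (v.2.2 : ℕ) + 1 ≤ 2 * σ := by omega
        exact_mod_cast this
      calc ((2 * (v.2.2 : ℕ) + 1 : ℕ) : ℝ) * D.lw u.1 ≤ (2 * σ) * (3 * E) :=
            mul_le_mul e4 (HB.lw u.2) (D.lw_nonneg _) (by positivity)
        _ = 6 * (E * σ) := by ring
    calc _ ≤ Real.exp (G * (2 * T0 : ℕ)) * Real.exp (6 * (E * σ)) :=
          mul_le_mul h1 h2 (Real.exp_pos _).le (Real.exp_pos _).le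
      _ = Real.exp (2 * (G * T0) + 6 * (E * σ)) := by
          rw [← Real.exp_add]
          congr 1
          push_cast
          ring
  have hb2 : 2 * Fintype.card V ≤ Fintype.card U := by
    rw [hcardU, hcardV]
    exact hV
  have hb3 : 0 < Fintype.card V := by
    rw [hcardV]
    positivity
  obtain ⟨p, hp0, hpz, hpb⟩ := Pool.Agent.H54.BF.sie U V a
    (Real.exp (2 * (G * T0) + 6 * (E * σ))) (Real.one_le_exp (by positivity)) hb1 hb2 hb3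
  obtain ⟨pe, hpe⟩ : ∃ pe : IX → ℤ, ∀ (u : IX) (h : u ∈ bx n1 n2 n3), pe u = p ⟨u, h⟩ :=
    ⟨fun u => if h : u ∈ bx n1 n2 n3 then p ⟨u, h⟩ else 0, fun u h => dif_pos h⟩
  refine ⟨pe, ?_, ?_, ?_⟩
  · obtain ⟨u, hu⟩ := Function.ne_iff.mp hp0
    refine ⟨u.1, u.2, ?_⟩
    rw [hpe u.1 u.2]
    exact hu
  · intro u hu
    rw [hpe u hu]
    refine (hpb ⟨u, hu⟩).trans ?_
    refine mul_le_mul_of_nonneg_right ?_ (Real.exp_pos _).le
    rw [hcardU]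
    push_cast
    exact HB.g3
  · intro m1 m2 hm j hj
    have h1 := hpz (⟨m1, by omega⟩, ⟨m2, by omega⟩, ⟨j, hj⟩)
    have h2 : D.h (bx n1 n2 n3) pe m1 m2
        ((2 * j + 1 : ℕ) : ℝ) = ((∑ u : U, a (⟨m1, by omega⟩, ⟨m2, by omega⟩, ⟨j, hj⟩) u * p u
          : ℤ) : ℝ) := by
      unfold DT.h
      rw [← Finset.sum_coe_sort, Int.cast_sum]
      refine Finset.sum_congr rfl fun u _ => ?_
      unfold DT.co
      rw [hpe u.1 u.2, ← hwexp u.1 (2 * j + 1)]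
      simp only [a]
      push_cast
      ring
    rw [h2, h1]
    simp

/-- The bound for the linear form: the hypotheses are contradictory. -/
theorem three_logs {τ σ : ℕ} {E G η : ℝ} (H : Sz D τ σ E G η)
    (hsq : ∀ e : Fin 3 → Fin 2, e ≠ 0 → ¬ IsSquare (∏ i, D.av i ^ (e i : ℕ)))
    {J n1 n2 n3 : ℕ} (h1 : n1 ≤ J) (h2 : n2 ≤ J) (h3 : n3 ≤ J)
    (hJ : 100 * ((J + 1) * G) ≤ σ) (HB : Bd D n1 n2 n3 E G)
    (hV : 2 * ((τ * (J + 1) + 1) * ((τ * (J + 1) + 1) * σ)) ≤ 2 ^ n1 * (2 ^ n2 * 2 ^ n3)) :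
    False := by
  have hG0 : 0 ≤ G := by linarith [H.hG]
  have hE0 : 0 ≤ E := by linarith [H.hE]
  have hσ0 : (0 : ℝ) < σ := by linarith [H.hσ, H.hG]
  have hσ1 : 0 < σ := by exact_mod_cast hσ0
  obtain ⟨l1, l2, l3, l4, l5, l6⟩ := H.lin
  set T0 := τ * (J + 1) with hT0
  set P : ℝ := Real.exp (3 * G) * Real.exp (2 * (G * T0) + 6 * (E * σ)) with hP
  have hP0 : 0 ≤ P := by positivity
  have hGT : G * T0 ≤ (τ * σ : ℝ) / 100 := by
    rw [hT0]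
    push_cast
    have hτ0 : (0 : ℝ) ≤ τ := Nat.cast_nonneg _
    nlinarith
  have hX : Real.exp (3 * G) * (P * Real.exp (G * T0)) ≤ Real.exp ((τ * σ : ℝ) / 25) := by
    rw [hP, ← Real.exp_add, ← Real.exp_add, ← Real.exp_add]
    refine Real.exp_le_exp.mpr ?_
    linarith
  have hind : ∀ i : ℕ, i ≤ J → Bd D (n1 - i) (n2 - i) (n3 - i) E G ∧
      ∃ p : IX → ℤ, Stage D (n1 - i) (n2 - i) (n3 - i) (T0 - i * τ) σ P p := by
    intro i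
    induction i with
    | zero =>
      intro _
      refine ⟨HB, ?_⟩
      have := stage_zero H HB hV
      simpa using this
    | succ i ih =>
      intro hi
      obtain ⟨hB, p, hp⟩ := ih (by omega)
      refine ⟨hB.pred, ?_⟩
      have h5 : τ ≤ T0 - i * τ := by
        have : (i + 1) * τ ≤ J * τ := Nat.mul_le_mul_right _ hi
        have e1 : T0 = J * τ + τ := by rw [hT0]; ring
        have e2 : (i + 1) * τ = i * τ + τ := by ring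
        omega
      have h6 := stage_step H hsq hB hP0 (Nat.sub_le T0 (i * τ)) hX p hp h5
      have e3 : T0 - i * τ - τ = T0 - (i + 1) * τ := by
        have e2 : (i + 1) * τ = i * τ + τ := by ring
        omega
      rwa [e3] at h6
  obtain ⟨_, p, hp⟩ := hind J le_rfl
  rw [Nat.sub_eq_zero_of_le h1, Nat.sub_eq_zero_of_le h2, Nat.sub_eq_zero_of_le h3] at hp
  exact stage_last hσ1 p hp

end

end Pool.Agent.H25.NB
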